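import Pool.Agent.TH83.DC.Parts

/-!
If the products of `k` members of a set of integers with few divisors collide often, then some
member has a common divisor with many divisors with many members of the set.
-/

set_option autoImplicit false

namespace Pool.Agent.TH83.DC

open Finset
open scoped Classical

/-- the constants -/
structure FC (k : ℕ) (δ ε κ : ℝ) where
  m : ℕ
  t₀ : ℕ
  η₀ : ℝ
  u₀ : ℝ
  v₀ : ℝ
  p : ℝ
  N₀ : ℝ
  hm : 2 ≤ ε * (m + 1)
  hfew : ∀ a : ℕ, a ≠ 0 → ∀ L : ℝ, wt a ≤ κ * L →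
    ((a.divisors.filter fun d => wt d ≤ η₀ * L).card : ℝ) ≤ Real.exp (δ / (8 * k ^ 2) * L)
  u0 : 0 < u₀
  v0 : 0 < v₀
  huκ : 2 * u₀ ≤ κ
  hη : m * (k * u₀) + (k : ℝ) ^ t₀ * v₀ ≤ η₀
  hv : (k : ℝ) ^ t₀ * Real.sqrt v₀ ≤ Real.sqrt κ
  p0 : 0 < p
  hp1 : (k + 1) * p ≤ 1 / 2
  hp2 : p * (k : ℝ) ^ t₀ ≤ 1
  ht : m + 3 < t₀ * (u₀ / (8 * k * κ))
  N1 : 1 ≤ N₀
  hN1 : Real.log 2 + k * (m * Real.log k) ≤ δ / 4 * N₀
  hN2 : Real.log (1 / p) ≤ δ / 2 * N₀
  hN3 : (k : ℝ) ^ t₀ * Real.log 2 + Real.log (1 / p) ≤ N₀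

theorem exists_FC (k : ℕ) (hk : 0 < k) (δ ε κ : ℝ) (hδ : 0 < δ) (hε : 0 < ε) (hκ : 0 < κ) :
    Nonempty (FC k δ ε κ) := by
  have hk0 : (0 : ℝ) < k := by exact_mod_cast hk
  have hk1 : (1 : ℝ) ≤ k := by exact_mod_cast hk
  obtain ⟨m, hm⟩ := exists_nat_ge (2 / ε)
  have hm' : 2 ≤ ε * (m + 1) := by
    rw [div_le_iff₀ hε] at hm
    nlinarith
  obtain ⟨η₁, η10, hη₁⟩ := few_small (δ / (8 * k ^ 2) / κ) (by positivity)
  set η₀ : ℝ := η₁ * κ with hη₀
  have η0 : 0 < η₀ := by positivity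
  set u₀ : ℝ := min (η₀ / (2 * (m + 1) * k)) (κ / 2) with hu₀
  have u0 : 0 < u₀ := lt_min (by positivity) (by positivity)
  obtain ⟨t₀, ht₀⟩ := exists_nat_gt ((m + 3) / (u₀ / (8 * k * κ)))
  rw [div_lt_iff₀ (by positivity)] at ht₀
  set T : ℝ := (k : ℝ) ^ t₀ with hT
  have T1 : 1 ≤ T := one_le_pow₀ hk1
  have T0 : 0 < T := by linarith
  set v₀ : ℝ := min (η₀ / (2 * T)) (κ / T ^ 2) with hv₀
  have v0 : 0 < v₀ := lt_min (by positivity) (by positivity)
  set p : ℝ := min (1 / (2 * (k + 1))) (1 / T) with hp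
  have p0 : 0 < p := lt_min (by positivity) (by positivity)
  set N₀ : ℝ := max 1 (max ((Real.log 2 + k * (m * Real.log k)) / (δ / 4))
    (max (Real.log (1 / p) / (δ / 2)) (T * Real.log 2 + Real.log (1 / p)))) with hN₀
  refine ⟨⟨m, t₀, η₀, u₀, v₀, p, N₀, hm', ?_, u0, v0, ?_, ?_, ?_, p0, ?_, ?_, ht₀,
    le_max_left _ _, ?_, ?_, ?_⟩⟩
  · intro a ha L hL
    have h1 := hη₁ a ha (κ * L) hL
    rw [← mul_assoc, ← hη₀] at h1
    refine h1.trans (le_of_eq ?_)
    congr 1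
    field_simp
  · have : u₀ ≤ κ / 2 := min_le_right _ _
    linarith
  · have h1 : u₀ ≤ η₀ / (2 * (m + 1) * k) := min_le_left _ _
    have h2 : v₀ ≤ η₀ / (2 * T) := min_le_left _ _
    have h3 : m * (k * u₀) ≤ η₀ / 2 := by
      calc m * (k * u₀) ≤ (m + 1) * (k * (η₀ / (2 * (m + 1) * k))) :=
            mul_le_mul (by linarith) (mul_le_mul_of_nonneg_left h1 hk0.le) (by positivity)
              (by positivity)
        _ = η₀ / 2 := by field_simp
    have h4 : T * v₀ ≤ η₀ / 2 := by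
      calc T * v₀ ≤ T * (η₀ / (2 * T)) := mul_le_mul_of_nonneg_left h2 T0.le
        _ = η₀ / 2 := by field_simp
    linarith
  · have h1 : v₀ ≤ κ / T ^ 2 := min_le_right _ _
    have h2 : Real.sqrt v₀ ≤ Real.sqrt κ / T := by
      calc Real.sqrt v₀ ≤ Real.sqrt (κ / T ^ 2) := Real.sqrt_le_sqrt h1
        _ = Real.sqrt κ / T := by rw [Real.sqrt_div' _ (by positivity), Real.sqrt_sq T0.le]
    calc T * Real.sqrt v₀ ≤ T * (Real.sqrt κ / T) := mul_le_mul_of_nonneg_left h2 T0.le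
      _ = Real.sqrt κ := by field_simp
  · have h1 : p ≤ 1 / (2 * (k + 1)) := min_le_left _ _
    calc (k + 1) * p ≤ (k + 1) * (1 / (2 * (k + 1))) :=
          mul_le_mul_of_nonneg_left h1 (by positivity)
      _ = 1 / 2 := by field_simp
  · have h1 : p ≤ 1 / T := min_le_right _ _
    calc p * T ≤ 1 / T * T := mul_le_mul_of_nonneg_right h1 T0.le
      _ = 1 := by field_simp
  · have h1 : (Real.log 2 + k * (m * Real.log k)) / (δ / 4) ≤ N₀ :=
      (le_max_left _ _).trans (le_max_right _ _)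
    rw [div_le_iff₀ (by positivity)] at h1
    linarith
  · have h1 : Real.log (1 / p) / (δ / 2) ≤ N₀ :=
      (le_max_left _ _).trans ((le_max_right _ _).trans (le_max_right _ _))
    rw [div_le_iff₀ (by positivity)] at h1
    linarith
  · exact (le_max_right _ _).trans ((le_max_right _ _).trans (le_max_right _ _))

/-- the common refinement of the pieces and the new factors -/
theorem exists_R {A : Finset ℕ} (h0 : 0 ∉ A) (E : Expt A) (k : ℕ) :
    ∃ R : (Fin k → E.Ω) → (Fin k → ℕ) → Fin k → E.Λ → Fin k → ℕ,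
      (∀ z, ∀ y ∈ rep A (fun i => E.root (z i)), ∀ i l, ∏ j, R z y i l j = E.piece (z i) l) ∧
      ∀ z, ∀ y ∈ rep A (fun i => E.root (z i)), ∀ j, ∏ i, ∏ l, R z y i l j = y j := by
  have key : ∀ z : Fin k → E.Ω, ∀ y : Fin k → ℕ, ∃ Q : Fin k → E.Λ → Fin k → ℕ,
      y ∈ rep A (fun i => E.root (z i)) →
        (∀ i l, ∏ j, Q i l j = E.piece (z i) l) ∧ ∀ j, ∏ i, ∏ l, Q i l j = y j := by
    intro z y
    by_cases hy : y ∈ rep A (fun i => E.root (z i))
    · have hroot : ∀ ω, E.root ω ≠ 0 := fun ω h => h0 (h ▸ E.root_mem ω)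
      have hy1 := Finset.mem_filter.1 hy
      have hy0 : ∀ j, y j ≠ 0 := fun j h =>
        h0 (h ▸ (Fintype.mem_piFinset.1 hy1.1 j))
      have hp0 : ∀ t : Fin k × E.Λ, E.piece (z t.1) t.2 ≠ 0 := by
        intro t h
        apply hroot (z t.1)
        rw [← E.prod_piece (z t.1)]
        exact Finset.prod_eq_zero (Finset.mem_univ t.2) h
      have hprod : ∏ t : Fin k × E.Λ, E.piece (z t.1) t.2 = ∏ j, y j := by
        rw [Fintype.prod_prod_type, hy1.2]
        exact Finset.prod_congr rfl fun i _ => E.prod_piece (z i)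
      obtain ⟨Q, hQ1, hQ2⟩ := refine_exists (fun t : Fin k × E.Λ => E.piece (z t.1) t.2) y hp0 hy0
        hprod
      refine ⟨fun i l j => Q (i, l) j, fun _ => ⟨fun i l => hQ1 (i, l), fun j => ?_⟩⟩
      rw [← hQ2 j, Fintype.prod_prod_type]
    · exact ⟨fun _ _ _ => 0, fun h => absurd h hy⟩
  choose R hR using key
  exact ⟨R, fun z y hy => (hR z y hy).1, fun z y hy => (hR z y hy).2⟩

theorem expt_gain {A : Finset ℕ} (hA : A.Nonempty) (h0 : 0 ∉ A) (E : Expt A) (k : ℕ) (hk : 0 < k)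
    (u v η K W M : ℝ) (m : ℕ) (hu : 0 < u) (hv : 0 < v) (hK : ∀ a ∈ A, wt a ≤ K)
    (hη : m * (k * u) + Fintype.card E.Λ * v ≤ η)
    (hW : ∀ a ∈ A, ((a.divisors.filter fun d => wt d ≤ η).card : ℝ) ≤ W)
    (hM0 : 0 ≤ M)
    (hM : 2 * ((k : ℝ) ^ m * W ^ (2 * k)) ^ k ≤ M) (huK : 2 * u ≤ K)
    (p : ℝ) (hp : E.many (m + 1) v ≤ p)
    (hrare : (((tup k A).image fun x => ∏ i, x i).card : ℝ) * M ≤ p * (A.card : ℝ) ^ k) :
    ∃ E' : Expt A, Fintype.card E'.Λ = k * Fintype.card E.Λ ∧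
      E.pot + (1 - (k + 1) * p) / (2 * k) * (u / Real.sqrt (2 * K)) ≤ E'.pot := by
  obtain ⟨R, hR1, hR2⟩ := exists_R h0 E k
  obtain ⟨E', h1, h2⟩ := expt_step hA E k hk R hR1 hR2
  refine ⟨E', h1, ?_⟩
  rw [h2]
  refine gain_core hA h0 E k hk R hR1 u v K M m hu hK huK ?_ p hp ((rare k A M hM0).trans hrare)
  intro z hz
  have h3 := count_trivial (fun i => E.root (z i)) (fun i h => h0 (h ▸ E.root_mem (z i)))
    (fun i l => E.piece (z i) l) (fun i => E.prod_piece (z i))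
    ((rep A fun i => E.root (z i)).filter fun y => ∀ i l, Triv u (R z y i l)) (R z)
    (fun y hy => hR1 z y (Finset.mem_filter.1 hy).1)
    (fun y hy => hR2 z y (Finset.mem_filter.1 hy).1) u v η hu hv m hz hη W
    (fun i => hW _ (E.root_mem (z i))) (fun y hy => (Finset.mem_filter.1 hy).2)
  linarith

/-- the union bound gives the conclusion -/
theorem union_concl {k : ℕ} {δ ε κ : ℝ} (c : FC k δ ε κ)
    {A : Finset ℕ} (hA : A.Nonempty) (h0 : 0 ∉ A) (hL : c.N₀ ≤ Real.log A.card) (E : Expt A)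
    (hΛ : (Fintype.card E.Λ : ℝ) ≤ (k : ℝ) ^ c.t₀) (v : ℝ)
    (hmany : c.p < E.many (c.m + 1) v) :
    ∃ a₀ ∈ A, (1 - ε) * Real.log A.card ≤
      Real.log ((A.filter fun b => v ≤ wt (Nat.gcd a₀ b)).card : ℝ) := by
  have cA : (0 : ℝ) < A.card := by exact_mod_cast hA.card_pos
  obtain ⟨a₀, ha₀, hmax⟩ := Finset.exists_max_image A
    (fun a => (A.filter fun b => v ≤ wt (Nat.gcd a b)).card) hA
  refine ⟨a₀, ha₀, ?_⟩
  set n₀ : ℝ := ((A.filter fun b => v ≤ wt (Nat.gcd a₀ b)).card : ℝ) with hn₀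
  set L := Real.log A.card with hLdef
  set ρ : ℝ := n₀ / A.card with hρ
  have hn0 : 0 ≤ n₀ := by positivity
  have h1 := expt_union hA h0 E (c.m + 1) v ρ (fun a ha => by
    rw [hρ, div_mul_cancel₀ _ cA.ne', hn₀]
    exact_mod_cast hmax a ha) (by positivity)
  have h2 : c.p < 2 ^ Fintype.card E.Λ * A.card * ρ ^ (c.m + 1) := hmany.trans_le h1
  have hnpos : 0 < n₀ := by
    rcases hn0.eq_or_lt with h | h
    · exfalso
      have : ρ = 0 := by rw [hρ, ← h, zero_div]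
      rw [this, zero_pow (Nat.succ_ne_zero _), mul_zero] at h2
      exact absurd h2 (not_lt.2 c.p0.le)
    · exact h
  have hρ0 : 0 < ρ := by positivity
  have h3 := Real.log_lt_log c.p0 h2
  rw [Real.log_mul (by positivity) (by positivity), Real.log_mul (by positivity) cA.ne',
    Real.log_pow, Real.log_pow] at h3
  have h4 : Real.log ρ = Real.log n₀ - L := Real.log_div hnpos.ne' cA.ne'
  have h5 : Real.log (1 / c.p) = - Real.log c.p := by rw [one_div, Real.log_inv]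
  have h6 : (Fintype.card E.Λ : ℝ) * Real.log 2 ≤ (k : ℝ) ^ c.t₀ * Real.log 2 :=
    mul_le_mul_of_nonneg_right hΛ (Real.log_nonneg (by norm_num))
  have h7 := c.hN3
  rw [h5] at h7
  -- `(m+1) (L - log n₀) ≤ 2 L`
  have h8 : ((c.m : ℝ) + 1) * (L - Real.log n₀) ≤ 2 * L := by
    rw [h4] at h3
    push_cast at h3
    nlinarith
  have hL0 : 0 ≤ L := Real.log_natCast_nonneg _
  have hm1 : (0 : ℝ) < c.m + 1 := by positivity
  by_contra hcon
  push Not at hcon
  have h9 : ε * L < L - Real.log n₀ := by linarith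
  have h10 : (c.m + 1) * (ε * L) < 2 * L := (mul_lt_mul_of_pos_left h9 hm1).trans_le h8
  have h11 := mul_le_mul_of_nonneg_right c.hm hL0
  nlinarith

theorem frag (k : ℕ) (hk : 0 < k) (δ ε κ : ℝ) (hδ : 0 < δ) (hε : 0 < ε) (hκ : 0 < κ) :
    ∃ c N₀ : ℝ, 0 < c ∧ ∀ A : Finset ℕ, A.Nonempty → 0 ∉ A → N₀ ≤ Real.log A.card →
      (∀ a ∈ A, wt a ≤ κ * Real.log A.card) →
      Real.log ((tup k A).image fun x => ∏ i, x i).card ≤ (k - δ) * Real.log A.card →
      ∃ a₀ ∈ A, (1 - ε) * Real.log A.card ≤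
        Real.log ((A.filter fun b => c * Real.log A.card ≤ wt (Nat.gcd a₀ b)).card : ℝ) := by
  obtain ⟨c⟩ := exists_FC k hk δ ε κ hδ hε hκ
  have hk0 : (0 : ℝ) < k := by exact_mod_cast hk
  have hk1 : (1 : ℝ) ≤ k := by exact_mod_cast hk
  refine ⟨c.v₀, c.N₀, c.v0, ?_⟩
  intro A hA h0 hL hcard hprod
  have cA : (0 : ℝ) < A.card := by exact_mod_cast hA.card_pos
  set L := Real.log A.card with hLdef
  have hL1 : 1 ≤ L := c.N1.trans hL
  have hL0 : 0 < L := by linarith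
  by_contra hcon
  set K : ℝ := κ * L with hK
  have hK0 : 0 < K := by positivity
  set u : ℝ := c.u₀ * L with hu
  set v : ℝ := c.v₀ * L with hv
  set η : ℝ := c.η₀ * L with hη
  set W : ℝ := Real.exp (δ / (8 * k ^ 2) * L) with hW
  set M : ℝ := Real.exp (δ / 2 * L) with hM
  have hu0 : 0 < u := mul_pos c.u0 hL0
  have hv0 : 0 < v := mul_pos c.v0 hL0
  have hWle : ∀ a ∈ A, ((a.divisors.filter fun d => wt d ≤ η).card : ℝ) ≤ W := fun a ha =>
    c.hfew a (fun h => h0 (h ▸ ha)) L (hcard a ha)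
  have hMle : 2 * ((k : ℝ) ^ c.m * W ^ (2 * k)) ^ k ≤ M := by
    have e1 : 2 * ((k : ℝ) ^ c.m * W ^ (2 * k)) ^ k =
        Real.exp (Real.log 2 + k * (c.m * Real.log k) + δ / 4 * L) := by
      rw [Real.exp_add, Real.exp_add, Real.exp_log (by norm_num), mul_pow, ← pow_mul, ← pow_mul]
      have e2 : (k : ℝ) ^ (c.m * k) = Real.exp (k * (c.m * Real.log k)) := by
        rw [← Real.rpow_natCast, Real.rpow_def_of_pos hk0]
        congr 1
        push_cast; ring
      have e3 : W ^ (2 * k * k) = Real.exp (δ / 4 * L) := by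
        rw [hW, ← Real.exp_nat_mul]
        congr 1
        push_cast
        field_simp
        ring
      rw [e2, e3]
      ring
    rw [e1, hM]
    apply Real.exp_le_exp.2
    have h1 : Real.log 2 + k * (c.m * Real.log k) ≤ δ / 4 * L :=
      c.hN1.trans (mul_le_mul_of_nonneg_left hL (by positivity))
    linarith
  have hrare : (((tup k A).image fun x => ∏ i, x i).card : ℝ) * M ≤ c.p * (A.card : ℝ) ^ k := by
    have cI : (0 : ℝ) < ((tup k A).image fun x => ∏ i, x i).card := by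
      have : ((tup k A).image fun x => ∏ i, x i).Nonempty := by
        apply Finset.Nonempty.image
        unfold tup
        rw [Fintype.piFinset_nonempty]
        exact fun _ => hA
      exact_mod_cast this.card_pos
    have e1 : (((tup k A).image fun x => ∏ i, x i).card : ℝ) ≤ Real.exp ((k - δ) * L) := by
      rw [← Real.exp_log cI]
      exact Real.exp_le_exp.2 hprod
    have e2 : (A.card : ℝ) ^ k = Real.exp (k * L) := by
      rw [← Real.rpow_natCast, Real.rpow_def_of_pos cA, mul_comm]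
    have e3 : Real.exp (-(δ / 2 * L)) ≤ c.p := by
      have h1 : Real.log (1 / c.p) ≤ δ / 2 * L :=
        c.hN2.trans (mul_le_mul_of_nonneg_left hL (by positivity))
      rw [one_div, Real.log_inv] at h1
      have h2 := c.p0
      rw [← Real.exp_log h2]
      exact Real.exp_le_exp.2 (by linarith)
    calc (((tup k A).image fun x => ∏ i, x i).card : ℝ) * M ≤ Real.exp ((k - δ) * L) * Real.exp (δ / 2 * L) :=
          mul_le_mul_of_nonneg_right e1 (Real.exp_pos _).le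
      _ = Real.exp (-(δ / 2 * L)) * Real.exp (k * L) := by
          rw [← Real.exp_add, ← Real.exp_add]; congr 1; ring
      _ ≤ c.p * Real.exp (k * L) := mul_le_mul_of_nonneg_right e3 (Real.exp_pos _).le
      _ = _ := by rw [e2]
  have hgain : c.u₀ / (8 * k * κ) * Real.sqrt K ≤
      (1 - (k + 1) * c.p) / (2 * k) * (u / Real.sqrt (2 * K)) := by
    have h1 : 1 / (4 * k) ≤ (1 - (k + 1) * c.p) / (2 * k) := by
      rw [div_le_div_iff₀ (by positivity) (by positivity)]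
      have := c.hp1
      nlinarith
    have h2 : c.u₀ / (2 * κ) * Real.sqrt K ≤ u / Real.sqrt (2 * K) := by
      rw [le_div_iff₀ (Real.sqrt_pos.2 (by positivity)), hu]
      have h3 : Real.sqrt (2 * K) ≤ 2 * Real.sqrt K := by
        rw [Real.sqrt_le_left (by positivity), mul_pow, Real.sq_sqrt hK0.le]
        linarith
      calc c.u₀ / (2 * κ) * Real.sqrt K * Real.sqrt (2 * K) ≤
            c.u₀ / (2 * κ) * Real.sqrt K * (2 * Real.sqrt K) :=
              mul_le_mul_of_nonneg_left h3 (by have := c.u0; positivity)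
        _ = c.u₀ / κ * (Real.sqrt K * Real.sqrt K) := by field_simp
        _ = c.u₀ * L := by rw [Real.mul_self_sqrt hK0.le, hK]; field_simp
    calc c.u₀ / (8 * k * κ) * Real.sqrt K = 1 / (4 * k) * (c.u₀ / (2 * κ) * Real.sqrt K) := by
          field_simp; ring
      _ ≤ (1 - (k + 1) * c.p) / (2 * k) * (u / Real.sqrt (2 * K)) :=
          mul_le_mul h1 h2 (by have := c.u0; positivity) (le_trans (by positivity) h1)
  have huK : 2 * u ≤ K := by
    rw [hu, hK, ← mul_assoc]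
    exact mul_le_mul_of_nonneg_right c.huκ hL0.le
  -- no experiment has many large pieces
  have hno : ∀ E : Expt A, (Fintype.card E.Λ : ℝ) ≤ (k : ℝ) ^ c.t₀ →
      E.many (c.m + 1) v ≤ c.p := by
    intro E hE
    by_contra hmany
    push Not at hmany
    exact hcon (union_concl c hA h0 hL E hE v hmany)
  -- the experiments
  have hexp : ∀ t : ℕ, t ≤ c.t₀ → ∃ E : Expt A, Fintype.card E.Λ = k ^ t ∧
      t * (c.u₀ / (8 * k * κ) * Real.sqrt K) ≤ E.pot := by
    intro t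
    induction t with
    | zero =>
      intro _
      obtain ⟨E, hE⟩ := expt_base A hA
      refine ⟨E, by rw [hE, pow_zero], ?_⟩
      rw [Nat.cast_zero, zero_mul]
      unfold Expt.pot
      exact Finset.sum_nonneg fun ω _ => mul_nonneg (E.w_nonneg ω)
        (Finset.sum_nonneg fun l _ => Real.sqrt_nonneg _)
    | succ t ih =>
      intro ht
      obtain ⟨E, hE, hpot⟩ := ih (by omega)
      have hEc : (Fintype.card E.Λ : ℝ) ≤ (k : ℝ) ^ c.t₀ := by
        rw [hE]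
        push_cast
        exact pow_le_pow_right₀ hk1 (by omega)
      have h1 : c.m * (k * u) + Fintype.card E.Λ * v ≤ η := by
        have h2 : (Fintype.card E.Λ : ℝ) * v ≤ (k : ℝ) ^ c.t₀ * v :=
          mul_le_mul_of_nonneg_right hEc hv0.le
        have h3 := mul_le_mul_of_nonneg_right c.hη hL0.le
        calc c.m * (k * u) + Fintype.card E.Λ * v ≤ c.m * (k * u) + (k : ℝ) ^ c.t₀ * v := by linarith
          _ = (c.m * (k * c.u₀) + (k : ℝ) ^ c.t₀ * c.v₀) * L := by rw [hu, hv]; ring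
          _ ≤ _ := h3
      obtain ⟨E', hE', hpot'⟩ := expt_gain hA h0 E k hk u v η K W M c.m hu0 hv0 hcard h1 hWle
        (Real.exp_pos _).le hMle huK c.p (hno E hEc) hrare
      refine ⟨E', by rw [hE', hE, pow_succ]; ring, ?_⟩
      push_cast
      linarith
  obtain ⟨E, hE, hpot⟩ := hexp c.t₀ le_rfl
  have hEc : (Fintype.card E.Λ : ℝ) = (k : ℝ) ^ c.t₀ := by rw [hE]; push_cast; rfl
  have h1 := expt_pot_le hA h0 E (c.m + 1) v K hv0.le hcard
  have h2 := hno E hEc.le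
  rw [hEc] at h1
  have hsK : 0 < Real.sqrt K := Real.sqrt_pos.2 hK0
  have h3 : (k : ℝ) ^ c.t₀ * Real.sqrt v ≤ Real.sqrt K := by
    rw [hv, hK, Real.sqrt_mul c.v0.le, Real.sqrt_mul hκ.le, ← mul_assoc]
    exact mul_le_mul_of_nonneg_right c.hv (Real.sqrt_nonneg _)
  have h4 : E.many (c.m + 1) v * ((k : ℝ) ^ c.t₀ * Real.sqrt K) ≤ Real.sqrt K := by
    calc E.many (c.m + 1) v * ((k : ℝ) ^ c.t₀ * Real.sqrt K) ≤
          c.p * ((k : ℝ) ^ c.t₀ * Real.sqrt K) :=
            mul_le_mul_of_nonneg_right h2 (by positivity)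
      _ = c.p * (k : ℝ) ^ c.t₀ * Real.sqrt K := by ring
      _ ≤ 1 * Real.sqrt K := mul_le_mul_of_nonneg_right c.hp2 hsK.le
      _ = _ := one_mul _
  have h5 : (c.t₀ * (c.u₀ / (8 * k * κ))) * Real.sqrt K ≤ (c.m + 3) * Real.sqrt K := by
    push_cast at h1
    linarith
  have h6 := mul_lt_mul_of_pos_right c.ht hsK
  linarith

end Pool.Agent.TH83.DC
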