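import Mathlib

/-!
Iterating a lower bound for `|A + B|`.
-/

set_option autoImplicit false

namespace Pool.Agent.TH83.DC

open Finset
open scoped Pointwise

/-- the `k`-fold sum set -/
def kSum {M : Type*} [AddCommMonoid M] [DecidableEq M] (k : ℕ) (A : Finset M) : Finset M :=
  (Fintype.piFinset fun _ : Fin k => A).image fun f => ∑ i, f i

theorem kSum_nonempty {M : Type*} [AddCommMonoid M] [DecidableEq M] (k : ℕ) {A : Finset M}
    (hA : A.Nonempty) : (kSum k A).Nonempty := by
  unfold kSum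
  rw [Finset.image_nonempty, Fintype.piFinset_nonempty]
  exact fun _ => hA

theorem add_kSum_subset {M : Type*} [AddCommMonoid M] [DecidableEq M] (k : ℕ) (A : Finset M) :
    A + kSum k A ⊆ kSum (k + 1) A := by
  intro z hz
  obtain ⟨a, ha, s, hs, rfl⟩ := Finset.mem_add.1 hz
  obtain ⟨f, hf, rfl⟩ := Finset.mem_image.1 hs
  refine Finset.mem_image.2 ⟨Fin.cons a f, ?_, ?_⟩
  · rw [Fintype.mem_piFinset] at hf ⊢
    intro i
    refine Fin.cases ?_ (fun j => ?_) i
    · exact ha
    · exact hf j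
  · simp [Fin.sum_univ_succ]

theorem kSum_ge {A : Finset ℤ} (hA : A.Nonempty) {ε C L : ℝ} (hL : 0 ≤ L) (hε0 : 0 ≤ ε)
    (hε1 : ε ≤ 1) (hC : 0 ≤ C)
    (h : ∀ B : Finset ℤ, B.Nonempty →
      (1 - ε) * (L + Real.log B.card) - C ≤ Real.log ((A + B).card : ℝ)) (k : ℕ) :
    ((k : ℝ) - ε * k ^ 2) * L - k * C ≤ Real.log ((kSum k A).card : ℝ) := by
  induction k with
  | zero =>
    simp only [Nat.cast_zero, ne_eq, OfNat.ofNat_ne_zero, not_false_eq_true, zero_pow, mul_zero,
      sub_zero, zero_mul]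
    exact Real.log_natCast_nonneg _
  | succ k ih =>
    have h1 := h (kSum k A) (kSum_nonempty k hA)
    have h2 : Real.log ((A + kSum k A).card : ℝ) ≤ Real.log ((kSum (k + 1) A).card : ℝ) := by
      apply Real.log_le_log
      · exact_mod_cast (hA.add (kSum_nonempty k hA)).card_pos
      · exact_mod_cast Finset.card_le_card (add_kSum_subset k A)
    have h3 : (1 - ε) * (((k : ℝ) - ε * k ^ 2) * L - k * C) ≤
        (1 - ε) * Real.log ((kSum k A).card : ℝ) := mul_le_mul_of_nonneg_left ih (by linarith)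
    have hk : (0 : ℝ) ≤ k := Nat.cast_nonneg k
    have h4 : 0 ≤ ε * k * C := by positivity
    have h5 : 0 ≤ ε * k * L := by positivity
    have h6 : 0 ≤ ε ^ 2 * k ^ 2 * L := by positivity
    push_cast
    nlinarith

theorem kSum_cast (k : ℕ) (A : Finset ℕ) :
    (kSum k (A.image fun a : ℕ => (a : ℤ))).card ≤ (kSum k A).card := by
  have h : kSum k (A.image fun a : ℕ => (a : ℤ)) ⊆ (kSum k A).image fun a : ℕ => (a : ℤ) := by
    intro z hz
    obtain ⟨f, hf, rfl⟩ := Finset.mem_image.1 hz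
    rw [Fintype.mem_piFinset] at hf
    have h1 : ∀ i, ∃ a ∈ A, (a : ℤ) = f i := fun i => Finset.mem_image.1 (hf i)
    choose g hg1 hg2 using h1
    refine Finset.mem_image.2 ⟨∑ i, g i, Finset.mem_image.2 ⟨g, ?_, rfl⟩, ?_⟩
    · rw [Fintype.mem_piFinset]
      exact hg1
    · push_cast
      exact Finset.sum_congr rfl fun i _ => hg2 i
  exact (Finset.card_le_card h).trans Finset.card_image_le

/-- from logarithms to powers -/
theorem pow_of_log {N M : ℕ} (hM : 0 < M) (hN : 0 < N) {a C : ℝ}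
    (h : a * Real.log N - C ≤ Real.log M) : Real.exp (-C) * (N : ℝ) ^ a ≤ M := by
  have cN : (0 : ℝ) < N := by exact_mod_cast hN
  have cM : (0 : ℝ) < M := by exact_mod_cast hM
  rw [Real.rpow_def_of_pos cN, ← Real.exp_add]
  calc Real.exp (-C + Real.log N * a) ≤ Real.exp (Real.log M) :=
        Real.exp_le_exp.2 (by linarith)
    _ = M := Real.exp_log cM

end Pool.Agent.TH83.DC
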