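import Pool.Agent.TH83.DC.SMain
import Pool.Agent.TH83.DC.Frag
import Pool.Agent.TH83.DC.KFold
import Pool.Agent.TH83.SQ.Dilates

/-!
Assembly: dilates by divisors, and sums and products of sets of integers with few divisors.
-/

set_option autoImplicit false

namespace Pool.Agent.TH83.DC

open Finset
open Pool.Agent.TH83.SQ (cls dil)
open scoped Pointwise Classical

/-- the weight in terms of the factorisation -/
theorem wt_fact {n : ℕ} (hn : n ≠ 0) :
    wt n = ∑ p ∈ n.primeFactors, Real.log ((n.factorization p : ℝ) + 1) := by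
  unfold wt
  rw [Nat.card_divisors hn, Nat.cast_prod, Real.log_prod (fun p _ => by positivity)]
  refine Finset.sum_congr rfl fun p _ => ?_
  push_cast
  rfl

theorem exists_ge_T {n : ℕ} (hn : n ≠ 0) {X B : Finset ℤ} {a : ℝ} (h : a ≤ T n X B) :
    ∃ d, d ∣ n ∧ a ≤ Real.log ((dil (d : ℤ) X + B).card : ℝ) := by
  by_contra hcon
  push Not at hcon
  have hD : (n.divisors).Nonempty := ⟨1, Nat.one_mem_divisors.2 hn⟩
  have cD : (0 : ℝ) < n.divisors.card := by exact_mod_cast hD.card_pos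
  have h1 : ∑ d ∈ n.divisors, Real.log ((dil (d : ℤ) X + B).card : ℝ) <
      ∑ _d ∈ n.divisors, a :=
    Finset.sum_lt_sum_of_nonempty hD fun d hd => hcon d (Nat.dvd_of_mem_divisors hd)
  rw [Finset.sum_const, nsmul_eq_mul] at h1
  unfold T at h
  rw [le_div_iff₀ cD] at h
  linarith

/-- growth: for large `e`, `log (e + 1) ≤ c e` -/
theorem exists_E (c : ℝ) (hc : 0 < c) : ∃ E : ℕ, ∀ e : ℕ, E ≤ e → Real.log ((e : ℝ) + 1) ≤ c * e := by
  have h1 : ∀ e : ℕ, Real.log ((e : ℝ) + 1) ≤ c / 2 * (e + 1) + Real.log (2 / c) := by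
    intro e
    have h2 := Real.log_le_sub_one_of_pos (by positivity : 0 < c / 2 * ((e : ℝ) + 1))
    rw [Real.log_mul (by positivity) (by positivity)] at h2
    have h3 : Real.log (c / 2) = - Real.log (2 / c) := by rw [← Real.log_inv, inv_div]
    linarith
  obtain ⟨E, hE⟩ := exists_nat_ge ((c / 2 + Real.log (2 / c)) / (c / 2))
  refine ⟨E, fun e he => ?_⟩
  rw [div_le_iff₀ (by positivity)] at hE
  have h2 : (E : ℝ) ≤ e := by exact_mod_cast he
  have h3 := h1 e
  nlinarith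

/-- some dilate by a divisor has a large sum set -/
theorem dilates (δ θ : ℝ) (hδ : 0 < δ) (hθ : 0 < θ) :
    ∃ C : ℝ, ∀ n : ℕ, n ≠ 0 → ∀ X B : Finset ℤ, X.Nonempty → B.Nonempty →
      θ * (Real.log X.card + Real.log B.card) ≤ wt n →
      ∃ d, d ∣ n ∧ (1 - δ) * (Real.log X.card + Real.log B.card) - C ≤
        Real.log ((dil (d : ℤ) X + B).card : ℝ) := by
  set δ' : ℝ := δ / 4 with hδ'
  have hδ'0 : 0 < δ' := by positivity
  obtain ⟨C₁, hC₁, hsmall⟩ := jent_small δ' hδ'0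
  obtain ⟨E₁, hE₁⟩ := exists_nat_ge (2 / δ')
  rw [div_le_iff₀ hδ'0] at hE₁
  obtain ⟨E₂, hE₂⟩ := exists_E (δ' / (2 * C₁) * δ' * θ / 2) (by positivity)
  set E₀ : ℕ := max E₁ E₂ with hE₀
  have hl : 0 < Real.log ((E₀ : ℝ) + 2) := Real.log_pos (by
    have : (0 : ℝ) ≤ E₀ := Nat.cast_nonneg _
    linarith)
  obtain ⟨C₂, hC₂⟩ := Pool.Agent.TH83.SQ.dilates δ (θ / (2 * Real.log ((E₀ : ℝ) + 2))) hδ
    (by positivity)
  refine ⟨max C₂ 0, ?_⟩
  intro n hn X B hX hB hS
  set S : ℝ := Real.log X.card + Real.log B.card with hSdef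
  have hS0 : 0 ≤ S := add_nonneg (Real.log_natCast_nonneg _) (Real.log_natCast_nonneg _)
  rw [wt_fact hn] at hS
  set P₁ : Finset ℕ := n.primeFactors.filter fun p => n.factorization p < E₀ with hP₁
  set P₂ : Finset ℕ := n.primeFactors.filter fun p => ¬ n.factorization p < E₀ with hP₂
  have hsplit : ∑ p ∈ n.primeFactors, Real.log ((n.factorization p : ℝ) + 1) =
      ∑ p ∈ P₁, Real.log ((n.factorization p : ℝ) + 1) +
        ∑ p ∈ P₂, Real.log ((n.factorization p : ℝ) + 1) :=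
    (Finset.sum_filter_add_sum_filter_not _ _ _).symm
  rw [hsplit] at hS
  by_cases h1 : θ * S / 2 ≤ ∑ p ∈ P₁, Real.log ((n.factorization p : ℝ) + 1)
  · -- many primes with small exponents
    have hP₁p : ∀ p ∈ P₁, p.Prime := fun p hp =>
      Nat.prime_of_mem_primeFactors (Finset.mem_filter.1 hp).1
    have h2 : ∑ p ∈ P₁, Real.log ((n.factorization p : ℝ) + 1) ≤
        P₁.card * Real.log ((E₀ : ℝ) + 2) := by
      rw [← nsmul_eq_mul]
      apply Finset.sum_le_card_nsmul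
      intro p hp
      apply Real.log_le_log (by positivity)
      have h3 : (n.factorization p : ℝ) ≤ E₀ := by
        exact_mod_cast (Finset.mem_filter.1 hp).2.le
      linarith
    have h3 : θ / (2 * Real.log ((E₀ : ℝ) + 2)) * S ≤ P₁.card := by
      rw [div_mul_eq_mul_div, div_le_iff₀ (by positivity)]
      linarith
    obtain ⟨s, hs, hsum⟩ := hC₂ P₁ hP₁p X B hX hB h3
    refine ⟨∏ q ∈ s, q, ?_, ?_⟩
    · have h4 : s ⊆ n.primeFactors := hs.trans (Finset.filter_subset _ _)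
      exact (Finset.prod_dvd_prod_of_subset _ _ _ h4).trans (Nat.prod_primeFactors_dvd n)
    · have h5 : ((∏ q ∈ s, q : ℕ) : ℤ) = Pool.Agent.TH83.SQ.pr s := by
        unfold Pool.Agent.TH83.SQ.pr
        push_cast
        rfl
      rw [h5]
      have := le_max_left C₂ 0
      linarith
  · -- large exponents
    push Not at h1
    have h2 : θ * S / 2 ≤ ∑ p ∈ P₂, Real.log ((n.factorization p : ℝ) + 1) := by linarith
    have hP₂p : ∀ p ∈ P₂, p.Prime ∧ E₁ ≤ n.factorization p := by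
      intro p hp
      obtain ⟨h3, h4⟩ := Finset.mem_filter.1 hp
      exact ⟨Nat.prime_of_mem_primeFactors h3, (le_max_left _ _).trans (not_lt.1 h4)⟩
    have h3 := T_ge hδ'0 hC₁ hsmall E₁ (by linarith) (fun p => n.factorization p) P₂ hP₂p X B hX hB
    set Γ : ℝ := δ' / (2 * C₁) * ∑ p ∈ P₂, ((n.factorization p : ℕ) : ℝ) with hΓ
    set n₂ : ℕ := ∏ p ∈ P₂, p ^ n.factorization p with hn₂
    have hn₂0 : n₂ ≠ 0 := Finset.prod_ne_zero_iff.2 fun q hq => pow_ne_zero _ (hP₂p q hq).1.ne_zero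
    have hn₂n : n₂ ∣ n := by
      have h4 : n₂ ∣ ∏ p ∈ n.primeFactors, p ^ n.factorization p :=
        Finset.prod_dvd_prod_of_subset _ _ _ (Finset.filter_subset _ _)
      have h5 : ∏ p ∈ n.primeFactors, p ^ n.factorization p = n := Nat.factorization_prod_pow_eq_self hn
      rwa [h5] at h4
    -- `Γ ≥ S / δ'`
    have h4 : S ≤ δ' * Γ := by
      have h5 : ∑ p ∈ P₂, Real.log ((n.factorization p : ℝ) + 1) ≤
          ∑ p ∈ P₂, (δ' / (2 * C₁) * δ' * θ / 2 * (n.factorization p : ℝ)) := by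
        apply Finset.sum_le_sum
        intro p hp
        exact hE₂ _ ((le_max_right _ _).trans (not_lt.1 (Finset.mem_filter.1 hp).2))
      rw [← Finset.mul_sum] at h5
      have h6 : δ' / (2 * C₁) * δ' * θ / 2 * ∑ p ∈ P₂, (n.factorization p : ℝ) =
          θ / 2 * (δ' * Γ) := by rw [hΓ]; ring
      rw [h6] at h5
      have h7 : θ / 2 * S ≤ θ / 2 * (δ' * Γ) := by linarith
      exact le_of_mul_le_mul_left h7 (by positivity)
    have hSz : Sz X B = S := rfl
    rw [hSz] at h3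
    have h5 : (1 - δ) * S ≤ T n₂ X B := by
      rcases hS0.eq_or_lt with h | h
      · rw [← h, mul_zero]; exact T_nonneg _ _ _
      have hΓ0 : 0 < Γ := by
        by_contra hcon
        push Not at hcon
        have : δ' * Γ ≤ 0 := mul_nonpos_of_nonneg_of_nonpos hδ'0.le hcon
        linarith
      have h6 : S ^ 2 ≤ δ' * S * Γ := by nlinarith
      have h7 : (1 - δ) * S * Γ ≤ T n₂ X B * Γ := by
        have h8 : (1 - δ) * S * Γ = (1 - 3 * δ') * S * Γ - δ' * S * Γ := by rw [hδ']; ring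
        rw [h8]
        linarith
      exact le_of_mul_le_mul_right h7 hΓ0
    obtain ⟨d, hd, hle⟩ := exists_ge_T hn₂0 h5
    exact ⟨d, hd.trans hn₂n, by have := le_max_right C₂ 0; linarith⟩

end Pool.Agent.TH83.DC
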