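import Mathlib

/-!
Definitions for re-splitting of tuples of positive integers with the same product.
-/

set_option autoImplicit false

namespace Pool.Agent.TH83.DC

open Finset

/-- the logarithm of the number of divisors -/
noncomputable def wt (a : ℕ) : ℝ := Real.log (a.divisors.card : ℝ)

/-- the `k`-tuples of members of `A` -/
def tup (k : ℕ) (A : Finset ℕ) : Finset (Fin k → ℕ) := Fintype.piFinset fun _ => A

/-- the `k`-tuples of members of `A` with the same product as `x` -/
def rep {k : ℕ} (A : Finset ℕ) (x : Fin k → ℕ) : Finset (Fin k → ℕ) :=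
  (tup k A).filter fun y => ∏ i, y i = ∏ i, x i

/-- all but one of the factors have weight less than `u` -/
def Triv {k : ℕ} (u : ℝ) (c : Fin k → ℕ) : Prop := ∃ j, ∀ j', j' ≠ j → wt (c j') < u

/-- a finite experiment whose root is a uniformly random member of `A`, whose leaves are
independent uniformly random members of `A`, and whose pieces (one for each leaf, dividing the
leaf) have the root as their product -/
structure Expt (A : Finset ℕ) where
  Ω : Type
  Λ : Type
  iΩ : Fintype Ω
  iΛ : Fintype Λ
  w : Ω → ℝ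
  root : Ω → ℕ
  leaf : Ω → Λ → ℕ
  piece : Ω → Λ → ℕ
  w_nonneg : ∀ ω, 0 ≤ w ω
  root_mem : ∀ ω, root ω ∈ A
  root_law : ∀ f : ℕ → ℝ, ∑ ω, w ω * f (root ω) = (∑ a ∈ A, f a) / A.card
  leaf_law : ∀ h : Λ → ℕ → ℝ,
    ∑ ω, w ω * ∏ l, h l (leaf ω l) = ∏ l, ((∑ a ∈ A, h l a) / A.card)
  piece_leaf : ∀ ω l, piece ω l ∣ leaf ω l
  prod_piece : ∀ ω, ∏ l, piece ω l = root ω

attribute [instance] Expt.iΩ Expt.iΛ

/-- the potential: mean of the sum of the square roots of the weights of the pieces -/
noncomputable def Expt.pot {A : Finset ℕ} (E : Expt A) : ℝ :=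
  ∑ ω, E.w ω * ∑ l, Real.sqrt (wt (E.piece ω l))

open Classical in
/-- the probability that at least `m` pieces have weight at least `v` -/
noncomputable def Expt.many {A : Finset ℕ} (E : Expt A) (m : ℕ) (v : ℝ) : ℝ :=
  ∑ ω, E.w ω *
    (if m ≤ (Finset.univ.filter fun l => v ≤ wt (E.piece ω l)).card then 1 else 0)

end Pool.Agent.TH83.DC
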