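import Pool.Agent.TH83.DC.Main

/-!
Sums and products of finite sets of integers with few divisors: the final form.
-/

set_option autoImplicit false

namespace Pool.Agent.TH83.DC

open Finset
open Pool.Agent.TH83.SQ (cls dil)
open scoped Pointwise Classical

/-- the `m`-fold sums plus a set -/
theorem kSum_add_ge {D : Finset ℤ} (hD : D.Nonempty) {ε C L : ℝ} (hL : 0 ≤ L) (hε0 : 0 ≤ ε)
    (hε1 : ε ≤ 1) (hC : 0 ≤ C)
    (h : ∀ B : Finset ℤ, B.Nonempty →
      (1 - ε) * (L + Real.log B.card) - C ≤ Real.log ((D + B).card : ℝ)) (m : ℕ)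
    (B : Finset ℤ) (hB : B.Nonempty) :
    ((m : ℝ) - ε * m ^ 2) * L + (1 - m * ε) * Real.log B.card - m * C ≤
      Real.log ((kSum m D + B).card : ℝ) := by
  have hlB : 0 ≤ Real.log B.card := Real.log_natCast_nonneg _
  induction m with
  | zero =>
    have h0 : B ⊆ kSum 0 D + B := by
      intro b hb
      refine Finset.mem_add.2 ⟨0, ?_, b, hb, zero_add b⟩
      exact Finset.mem_image.2 ⟨fun i => i.elim0, Fintype.mem_piFinset.2 fun i => i.elim0,
        by simp⟩
    have h1 : Real.log B.card ≤ Real.log ((kSum 0 D + B).card : ℝ) :=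
      Real.log_le_log (by exact_mod_cast hB.card_pos) (by exact_mod_cast Finset.card_le_card h0)
    simp only [Nat.cast_zero, ne_eq, OfNat.ofNat_ne_zero, not_false_eq_true, zero_pow, mul_zero,
      sub_zero, zero_mul, one_mul, zero_add]
    exact h1
  | succ m ih =>
    have hn : (kSum m D + B).Nonempty := (kSum_nonempty m hD).add hB
    have h1 := h (kSum m D + B) hn
    have h2 : Real.log ((D + (kSum m D + B)).card : ℝ) ≤
        Real.log ((kSum (m + 1) D + B).card : ℝ) := by
      apply Real.log_le_log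
      · exact_mod_cast (hD.add hn).card_pos
      · have h3 : D + (kSum m D + B) ⊆ kSum (m + 1) D + B := by
          rw [← add_assoc]
          exact Finset.add_subset_add_right (add_kSum_subset m D)
        exact_mod_cast Finset.card_le_card h3
    have h3 : (1 - ε) * (((m : ℝ) - ε * m ^ 2) * L + (1 - m * ε) * Real.log B.card - m * C) ≤
        (1 - ε) * Real.log ((kSum m D + B).card : ℝ) :=
      mul_le_mul_of_nonneg_left ih (by linarith)
    have hm : (0 : ℝ) ≤ m := Nat.cast_nonneg m
    have h4 : 0 ≤ ε * m * C := by positivity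
    have h5 : 0 ≤ ε * m * L := by positivity
    have h6 : 0 ≤ ε ^ 2 * m ^ 2 * L := by positivity
    have h7 : 0 ≤ ε ^ 2 * m * Real.log B.card := by positivity
    push_cast
    nlinarith

/-- the positive divisors of the members of a set of integers -/
def DD (A : Finset ℤ) : Finset ℤ :=
  A.biUnion fun a => a.natAbs.divisors.image fun d : ℕ => (d : ℤ)

theorem DD_eq (A : Finset ℤ) : DD A = dv (A.image Int.natAbs) := by
  ext z
  unfold DD dv
  simp only [Finset.mem_biUnion, Finset.mem_image]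
  constructor
  · rintro ⟨a, ha, d, hd, rfl⟩
    exact ⟨d, ⟨a.natAbs, ⟨a, ha, rfl⟩, hd⟩, rfl⟩
  · rintro ⟨d, ⟨b, ⟨a, ha, rfl⟩, hd⟩, rfl⟩
    exact ⟨a, ha, d, hd, rfl⟩

theorem natAbs_card (A : Finset ℤ) : A.card ≤ 2 * (A.image Int.natAbs).card := by
  have h : A ⊆ (A.image Int.natAbs).image (fun a : ℕ => (a : ℤ)) ∪
      (A.image Int.natAbs).image (fun a : ℕ => -(a : ℤ)) := by
    intro a ha
    rw [Finset.mem_union]
    rcases Int.natAbs_eq a with h | h
    · exact Or.inl (Finset.mem_image.2 ⟨a.natAbs, Finset.mem_image_of_mem _ ha, h.symm⟩)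
    · exact Or.inr (Finset.mem_image.2 ⟨a.natAbs, Finset.mem_image_of_mem _ ha, h.symm⟩)
  calc A.card ≤ _ := Finset.card_le_card h
    _ ≤ _ := Finset.card_union_le _ _
    _ ≤ (A.image Int.natAbs).card + (A.image Int.natAbs).card :=
        add_le_add Finset.card_image_le Finset.card_image_le
    _ = _ := by ring

theorem kProd_natAbs (k : ℕ) (A : Finset ℤ) :
    (kProd k (A.image Int.natAbs)).card ≤ (kProd k A).card := by
  have h : kProd k (A.image Int.natAbs) ⊆ (kProd k A).image Int.natAbs := by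
    intro z hz
    obtain ⟨f, hf, rfl⟩ := Finset.mem_image.1 hz
    rw [Fintype.mem_piFinset] at hf
    have h1 : ∀ i, ∃ a ∈ A, a.natAbs = f i := fun i => Finset.mem_image.1 (hf i)
    choose g hg1 hg2 using h1
    refine Finset.mem_image.2 ⟨∏ i, g i, Finset.mem_image.2 ⟨g, ?_, rfl⟩, ?_⟩
    · rw [Fintype.mem_piFinset]
      exact hg1
    · rw [show (∏ i, g i).natAbs = ∏ i, (g i).natAbs from map_prod Int.natAbsHom g Finset.univ]
      exact Finset.prod_congr rfl fun i _ => hg2 i
  exact (Finset.card_le_card h).trans Finset.card_image_le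

/-- the final form -/
theorem final (k m : ℕ) (hk : 1 ≤ k) (δ ε κ : ℝ) (hδ : 0 < δ) (hε : 0 < ε) (hκ : 0 < κ) :
    ∃ c : ℝ, 0 < c ∧ ∀ A : Finset ℤ, A.Nonempty → 0 ∉ A →
      (∀ a ∈ A, (a.natAbs.divisors.card : ℝ) ≤ (A.card : ℝ) ^ κ) →
      (A.card : ℝ) ^ ((k : ℝ) - δ) ≤ ((kProd k A).card : ℝ) ∨
      ∀ B : Finset ℤ, B.Nonempty →
        c * (A.card : ℝ) ^ ((m : ℝ) - ε) * (B.card : ℝ) ^ (1 - ε) ≤
          ((kSum m (DD A) + B).card : ℝ) := by
  have hl2 : 0 < Real.log 2 := Real.log_pos (by norm_num)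
  have hm0 : (0 : ℝ) ≤ m := Nat.cast_nonneg m
  have hk0 : (0 : ℝ) < k := by exact_mod_cast hk
  set ε₁ : ℝ := min ε 1 / (m + 1) ^ 2 with hε₁
  have hε10 : 0 < ε₁ := by positivity
  have hε11 : ε₁ ≤ 1 := by
    rw [hε₁, div_le_one (by positivity)]
    exact (min_le_right _ _).trans (one_le_pow₀ (by linarith))
  have hε1m : (m + 1) ^ 2 * ε₁ ≤ ε := by
    rw [hε₁, mul_div_cancel₀ _ (by positivity)]
    exact min_le_left _ _
  have hε1a : m ^ 2 * ε₁ ≤ ε := by nlinarith
  have hε1b : m * ε₁ ≤ ε := by nlinarith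
  obtain ⟨C, hC0, hC⟩ := main k hk (δ / 2) ε₁ (2 * κ) (by positivity) hε10 (by positivity)
  set L₁ : ℝ := max (Real.log 2) (2 * k * Real.log 2 / δ) with hL₁
  have hL₁0 : 0 < L₁ := lt_max_of_lt_left hl2
  set C' : ℝ := m * C + m * Real.log 2 + m * L₁ with hC'
  refine ⟨Real.exp (-C'), Real.exp_pos _, fun A hA h0 hfew => ?_⟩
  have cA : (0 : ℝ) < A.card := by exact_mod_cast hA.card_pos
  by_cases hprod : (A.card : ℝ) ^ ((k : ℝ) - δ) ≤ ((kProd k A).card : ℝ)
  · exact Or.inl hprod
  right
  push Not at hprod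
  intro B hB
  have cB : (0 : ℝ) < B.card := by exact_mod_cast hB.card_pos
  have hlB : 0 ≤ Real.log B.card := Real.log_natCast_nonneg _
  -- the absolute values
  set A₁ : Finset ℕ := A.image Int.natAbs with hA₁
  have hA₁n : A₁.Nonempty := hA.image _
  have h01 : 0 ∉ A₁ := by
    intro h
    obtain ⟨a, ha, ha0⟩ := Finset.mem_image.1 h
    rw [Int.natAbs_eq_zero] at ha0
    exact h0 (ha0 ▸ ha)
  have cA₁ : (0 : ℝ) < A₁.card := by exact_mod_cast hA₁n.card_pos
  have hle1 : Real.log A₁.card ≤ Real.log A.card :=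
    Real.log_le_log cA₁ (by exact_mod_cast Finset.card_image_le)
  have hle2 : Real.log A.card ≤ Real.log 2 + Real.log A₁.card := by
    rw [← Real.log_mul (by norm_num) cA₁.ne']
    exact Real.log_le_log cA (by exact_mod_cast natAbs_card A)
  have hlA₁ : 0 ≤ Real.log A₁.card := Real.log_natCast_nonneg _
  have hlA : 0 ≤ Real.log A.card := Real.log_natCast_nonneg _
  rw [DD_eq, ← hA₁]
  have hDn : (dv A₁).Nonempty := dv_nonempty hA₁n h01
  have hSn : (kSum m (dv A₁) + B).Nonempty := (kSum_nonempty m hDn).add hB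
  have cS : (0 : ℝ) < ((kSum m (dv A₁) + B).card : ℝ) := by exact_mod_cast hSn.card_pos
  -- it is enough to bound the logarithm
  suffices hlog : -C' + ((m : ℝ) - ε) * Real.log A.card + (1 - ε) * Real.log B.card ≤
      Real.log ((kSum m (dv A₁) + B).card : ℝ) by
    rw [Real.rpow_def_of_pos cA, Real.rpow_def_of_pos cB, ← Real.exp_add, ← Real.exp_add]
    calc Real.exp (-C' + Real.log A.card * (m - ε) + Real.log B.card * (1 - ε)) ≤
          Real.exp (Real.log ((kSum m (dv A₁) + B).card : ℝ)) :=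
          Real.exp_le_exp.2 (by linarith)
      _ = _ := Real.exp_log cS
  by_cases hL : L₁ ≤ Real.log A₁.card
  · have hLa : Real.log 2 ≤ Real.log A₁.card := (le_max_left _ _).trans hL
    have hLb : 2 * k * Real.log 2 / δ ≤ Real.log A₁.card := (le_max_right _ _).trans hL
    rw [div_le_iff₀ hδ] at hLb
    have hwt : ∀ a ∈ A₁, wt a ≤ 2 * κ * Real.log A₁.card := by
      intro a ha
      obtain ⟨b, hb, rfl⟩ := Finset.mem_image.1 ha
      have h1 : wt b.natAbs ≤ κ * Real.log A.card := by
        unfold wt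
        rw [← Real.log_rpow cA]
        apply Real.log_le_log _ (hfew b hb)
        have : (b.natAbs.divisors).Nonempty :=
          ⟨1, Nat.one_mem_divisors.2 fun h => h01 (h ▸ ha)⟩
        exact_mod_cast this.card_pos
      have h2 : κ * Real.log A.card ≤ κ * (2 * Real.log A₁.card) :=
        mul_le_mul_of_nonneg_left (by linarith) hκ.le
      linarith
    have hp1 : Real.log ((tup k A₁).image fun x => ∏ i, x i).card ≤
        (k - δ / 2) * Real.log A₁.card := by
      have h1 : Real.log ((kProd k A₁).card : ℝ) ≤ (k - δ) * Real.log A.card := by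
        have c1 : (0 : ℝ) < ((kProd k A₁).card : ℝ) := by
          exact_mod_cast (kProd_nonempty k hA₁n).card_pos
        rw [← Real.log_rpow cA]
        apply Real.log_le_log c1
        exact (by exact_mod_cast kProd_natAbs k A : ((kProd k A₁).card : ℝ) ≤
          ((kProd k A).card : ℝ)).trans hprod.le
      rw [kProd_eq] at h1
      refine h1.trans ?_
      rcases le_total 0 ((k : ℝ) - δ) with h | h
      · have h2 : ((k : ℝ) - δ) * Real.log A.card ≤
            (k - δ) * (Real.log 2 + Real.log A₁.card) := mul_le_mul_of_nonneg_left hle2 h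
        nlinarith
      · have h2 : ((k : ℝ) - δ) * Real.log A.card ≤ (k - δ) * Real.log A₁.card :=
          mul_le_mul_of_nonpos_left hle1 h
        nlinarith
    have h1 := kSum_add_ge hDn hlA₁ hε10.le hε11 hC0 (hC A₁ hA₁n h01 hwt hp1) m B hB
    have h2 : ((m : ℝ) - ε) * Real.log A.card ≤ (m - ε₁ * m ^ 2) * Real.log A₁.card +
        m * Real.log 2 := by
      rcases le_total 0 ((m : ℝ) - ε) with h | h
      · have h3 : ((m : ℝ) - ε) * Real.log A.card ≤
            (m - ε) * (Real.log 2 + Real.log A₁.card) := mul_le_mul_of_nonneg_left hle2 h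
        have h4 : ((m : ℝ) - ε) * Real.log A₁.card ≤ (m - ε₁ * m ^ 2) * Real.log A₁.card :=
          mul_le_mul_of_nonneg_right (by linarith) hlA₁
        have h5 : ((m : ℝ) - ε) * Real.log 2 ≤ m * Real.log 2 :=
          mul_le_mul_of_nonneg_right (by linarith) hl2.le
        linarith
      · have h3 : ((m : ℝ) - ε) * Real.log A.card ≤ (m - ε) * Real.log A₁.card :=
          mul_le_mul_of_nonpos_left hle1 h
        have h4 : ((m : ℝ) - ε) * Real.log A₁.card ≤ (m - ε₁ * m ^ 2) * Real.log A₁.card :=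
          mul_le_mul_of_nonneg_right (by linarith) hlA₁
        have h5 : 0 ≤ m * Real.log 2 := by positivity
        linarith
    have h3 : (1 - ε) * Real.log B.card ≤ (1 - m * ε₁) * Real.log B.card :=
      mul_le_mul_of_nonneg_right (by linarith) hlB
    have h4 : 0 ≤ m * L₁ := by positivity
    rw [hC']
    linarith
  · push Not at hL
    have h1 : Real.log B.card ≤ Real.log ((kSum m (dv A₁) + B).card : ℝ) :=
      log_add_ge (kSum_nonempty m hDn) hB
    have h2 : ((m : ℝ) - ε) * Real.log A.card ≤ m * (Real.log 2 + L₁) := by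
      calc ((m : ℝ) - ε) * Real.log A.card ≤ m * Real.log A.card :=
            mul_le_mul_of_nonneg_right (by linarith) hlA
        _ ≤ m * (Real.log 2 + L₁) := mul_le_mul_of_nonneg_left (by linarith) hm0
    have h3 : 0 ≤ m * C := by positivity
    have h4 : 0 ≤ ε * Real.log B.card := by positivity
    rw [hC']
    linarith

end Pool.Agent.TH83.DC
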