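import Pool.Agent.TH83.DC.Final

/-!
Assembly: sums and products of sets of integers with few divisors.
-/

set_option autoImplicit false

namespace Pool.Agent.TH83.DC

open Finset
open Pool.Agent.TH83.SQ (cls dil)
open scoped Pointwise Classical

/-- a set with few divisors and a small product set: many members have a common divisor with many
divisors -/
theorem struct (k : ℕ) (hk : 0 < k) (δ ε κ : ℝ) (hδ : 0 < δ) (hε : 0 < ε) (hκ : 0 < κ) :
    ∃ θ L₀ : ℝ, 0 < θ ∧ ∀ A : Finset ℕ, A.Nonempty → 0 ∉ A → L₀ ≤ Real.log A.card →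
      (∀ a ∈ A, wt a ≤ κ * Real.log A.card) →
      Real.log ((tup k A).image fun x => ∏ i, x i).card ≤ (k - δ) * Real.log A.card →
      ∃ n : ℕ, n ≠ 0 ∧ (∃ a ∈ A, n ∣ a) ∧ θ * Real.log A.card ≤ wt n ∧
        (1 - ε) * Real.log A.card ≤ Real.log ((A.filter fun b => n ∣ b).card : ℝ) := by
  set ε₁ : ℝ := min ε 1 with hε₁
  have hε10 : 0 < ε₁ := by positivity
  have hε1e : ε₁ ≤ ε := min_le_left _ _
  have hε11 : ε₁ ≤ 1 := min_le_right _ _
  obtain ⟨c, N₀, hc, hfr⟩ := frag k hk δ (ε₁ / 2) κ hδ (by positivity) hκ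
  obtain ⟨u₀, hu₀, hfew⟩ := few_small (ε₁ / 2 / κ) (by positivity)
  have hl2 : 0 < Real.log 2 := Real.log_pos (by norm_num)
  set θ : ℝ := min c (u₀ * κ / 2) with hθ
  have hθ0 : 0 < θ := by positivity
  refine ⟨θ, max (max N₀ 1) (Real.log 2 / (u₀ * κ / 2)), hθ0, ?_⟩
  intro A hA h0 hL hwt hprod
  set L := Real.log A.card with hLdef
  have hL1 : N₀ ≤ L := (le_max_left _ _).trans ((le_max_left _ _).trans hL)
  have hL2 : 1 ≤ L := (le_max_right _ _).trans ((le_max_left _ _).trans hL)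
  have hL3 : Real.log 2 / (u₀ * κ / 2) ≤ L := (le_max_right _ _).trans hL
  have hL0 : 0 < L := by linarith
  rw [div_le_iff₀ (by positivity)] at hL3
  obtain ⟨a₀, ha₀, hlog⟩ := hfr A hA h0 hL1 hwt hprod
  have ha00 : a₀ ≠ 0 := fun h => h0 (h ▸ ha₀)
  set G := A.filter fun b => c * L ≤ wt (Nat.gcd a₀ b) with hG
  have hGn : G.Nonempty := by
    by_contra hcon
    rw [Finset.not_nonempty_iff_eq_empty] at hcon
    rw [hcon] at hlog
    simp only [Finset.card_empty, Nat.cast_zero, Real.log_zero] at hlog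
    have : 0 < (1 - ε₁ / 2) * L := mul_pos (by linarith) hL0
    linarith
  have cG : (0 : ℝ) < G.card := by exact_mod_cast hGn.card_pos
  -- the candidates
  set D : Finset ℕ := a₀.divisors.filter fun d => wt d ≤ u₀ * (κ * L) with hD
  have hDc : (D.card : ℝ) ≤ Real.exp (ε₁ / 2 * L) := by
    refine (hfew a₀ ha00 (κ * L) (hwt a₀ ha₀)).trans (le_of_eq ?_)
    congr 1
    field_simp
  have hex : ∀ b ∈ G, ∃ n, n ∣ Nat.gcd a₀ b ∧ θ * L ≤ wt n ∧ wt n ≤ θ * L + Real.log 2 := by
    intro b hb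
    have hb1 := (Finset.mem_filter.1 hb).2
    have hg0 : Nat.gcd a₀ b ≠ 0 := Nat.gcd_ne_zero_left ha00
    apply wt_interp hg0 (by positivity)
    exact le_trans (mul_le_mul_of_nonneg_right (min_le_left _ _) hL0.le) hb1
  choose! f hf1 hf2 hf3 using hex
  have hfD : ∀ b ∈ G, f b ∈ D := by
    intro b hb
    refine Finset.mem_filter.2 ⟨Nat.mem_divisors.2 ⟨(hf1 b hb).trans (Nat.gcd_dvd_left _ _), ha00⟩,
      (hf3 b hb).trans ?_⟩
    have h1 : θ * L ≤ u₀ * κ / 2 * L := mul_le_mul_of_nonneg_right (min_le_right _ _) hL0.le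
    linarith
  have hDn : D.Nonempty := by
    obtain ⟨b, hb⟩ := hGn
    exact ⟨f b, hfD b hb⟩
  have cD : (0 : ℝ) < D.card := by exact_mod_cast hDn.card_pos
  obtain ⟨n, hnD, hn⟩ := Finset.exists_max_image D (fun n => (G.filter fun b => f b = n).card) hDn
  have hpig : G.card ≤ D.card * (G.filter fun b => f b = n).card := by
    rw [Finset.card_eq_sum_card_fiberwise (f := f) (t := D) hfD]
    calc ∑ d ∈ D, (G.filter fun b => f b = d).card ≤
          ∑ _d ∈ D, (G.filter fun b => f b = n).card := Finset.sum_le_sum fun d hd => hn d hd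
      _ = _ := by rw [Finset.sum_const, smul_eq_mul]
  have hHn : (G.filter fun b => f b = n).Nonempty := by
    rw [Finset.nonempty_iff_ne_empty]
    intro h
    rw [h, Finset.card_empty, mul_zero] at hpig
    have := hGn.card_pos
    omega
  obtain ⟨b₀, hb₀⟩ := hHn
  obtain ⟨hb₀G, hb₀n⟩ := Finset.mem_filter.1 hb₀
  have hn0 : n ≠ 0 := by
    have h1 := (Finset.mem_filter.1 hnD).1
    exact (Nat.pos_of_mem_divisors h1).ne'
  refine ⟨n, hn0, ⟨a₀, ha₀, Nat.dvd_of_mem_divisors (Finset.mem_filter.1 hnD).1⟩, ?_, ?_⟩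
  · rw [← hb₀n]; exact hf2 b₀ hb₀G
  · have hsub : (G.filter fun b => f b = n) ⊆ A.filter fun b => n ∣ b := by
      intro b hb
      obtain ⟨hb1, hb2⟩ := Finset.mem_filter.1 hb
      refine Finset.mem_filter.2 ⟨(Finset.mem_filter.1 hb1).1, ?_⟩
      rw [← hb2]
      exact (hf1 b hb1).trans (Nat.gcd_dvd_right _ _)
    have h1 : (G.card : ℝ) ≤ D.card * ((A.filter fun b => n ∣ b).card : ℝ) := by
      have h2 : G.card ≤ D.card * (A.filter fun b => n ∣ b).card :=
        hpig.trans (Nat.mul_le_mul_left _ (Finset.card_le_card hsub))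
      exact_mod_cast h2
    have cH : (0 : ℝ) < ((A.filter fun b => n ∣ b).card : ℝ) := by
      by_contra hcon
      push Not at hcon
      have := mul_nonpos_of_nonneg_of_nonpos cD.le hcon
      linarith
    have h2 := Real.log_le_log cG h1
    rw [Real.log_mul cD.ne' cH.ne'] at h2
    have h3 : Real.log D.card ≤ ε₁ / 2 * L := by
      rw [← Real.log_exp (ε₁ / 2 * L)]
      exact Real.log_le_log cD hDc
    have h4 : (1 - ε) * L ≤ (1 - ε₁) * L := mul_le_mul_of_nonneg_right (by linarith) hL0.le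
    linarith

/-- the divisors of the members of `A`, as integers -/
def dv (A : Finset ℕ) : Finset ℤ := (A.biUnion Nat.divisors).image fun a : ℕ => (a : ℤ)

theorem mem_dv {A : Finset ℕ} (h0 : 0 ∉ A) {z : ℤ} :
    z ∈ dv A ↔ ∃ d : ℕ, (∃ a ∈ A, d ∣ a) ∧ (d : ℤ) = z := by
  unfold dv
  rw [Finset.mem_image]
  constructor
  · rintro ⟨d, hd, rfl⟩
    obtain ⟨a, ha, hda⟩ := Finset.mem_biUnion.1 hd
    exact ⟨d, ⟨a, ha, Nat.dvd_of_mem_divisors hda⟩, rfl⟩
  · rintro ⟨d, ⟨a, ha, hda⟩, rfl⟩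
    exact ⟨d, Finset.mem_biUnion.2 ⟨a, ha, Nat.mem_divisors.2 ⟨hda, fun h => h0 (h ▸ ha)⟩⟩, rfl⟩

theorem dv_nonempty {A : Finset ℕ} (hA : A.Nonempty) (h0 : 0 ∉ A) : (dv A).Nonempty := by
  obtain ⟨a, ha⟩ := hA
  exact ⟨(a : ℤ), (mem_dv h0).2 ⟨a, ⟨a, ha, dvd_rfl⟩, rfl⟩⟩

theorem log_add_ge {X B : Finset ℤ} (hX : X.Nonempty) (hB : B.Nonempty) :
    Real.log B.card ≤ Real.log ((X + B).card : ℝ) := by
  apply Real.log_le_log (by exact_mod_cast hB.card_pos)
  exact_mod_cast Finset.card_le_card_add_left hX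

/-- a set with few divisors and a small product set: the divisors have a large sum with every
set -/
theorem main (k : ℕ) (hk : 0 < k) (δ ε κ : ℝ) (hδ : 0 < δ) (hε : 0 < ε) (hκ : 0 < κ) :
    ∃ C : ℝ, 0 ≤ C ∧ ∀ A : Finset ℕ, A.Nonempty → 0 ∉ A →
      (∀ a ∈ A, wt a ≤ κ * Real.log A.card) →
      Real.log ((tup k A).image fun x => ∏ i, x i).card ≤ (k - δ) * Real.log A.card →
      ∀ B : Finset ℤ, B.Nonempty →
        (1 - ε) * (Real.log A.card + Real.log B.card) - C ≤
          Real.log ((dv A + B).card : ℝ) := by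
  set ε₁ : ℝ := min ε 1 / 2 with hε₁
  have hε10 : 0 < ε₁ := by positivity
  have hε11 : ε₁ ≤ 1 / 2 := by
    have := min_le_right ε 1
    rw [hε₁]; linarith
  have hε12 : 2 * ε₁ ≤ ε := by
    have := min_le_left ε 1
    rw [hε₁]; linarith
  obtain ⟨θ, L₀, hθ, hst⟩ := struct k hk δ ε₁ κ hδ hε10 hκ
  set M : ℝ := 1 / ε with hM
  have hM0 : 0 < M := by positivity
  obtain ⟨C, hC⟩ := dilates ε₁ (θ / (1 + M)) hε10 (by positivity)
  refine ⟨max C (max L₀ 0), (le_max_right _ _).trans (le_max_right _ _), ?_⟩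
  intro A hA h0 hwt hprod B hB
  set L := Real.log A.card with hLdef
  have hL0 : 0 ≤ L := Real.log_natCast_nonneg _
  have hB0 : 0 ≤ Real.log B.card := Real.log_natCast_nonneg _
  have hlow : Real.log B.card ≤ Real.log ((dv A + B).card : ℝ) :=
    log_add_ge (dv_nonempty hA h0) hB
  by_cases hL : L₀ ≤ L
  · by_cases hBM : Real.log B.card ≤ M * L
    · obtain ⟨n, hn0, ⟨a₁, ha₁, hna₁⟩, hn1, hn3⟩ := hst A hA h0 hL hwt hprod
      set H := A.filter fun b => n ∣ b with hH
      have hHn : H.Nonempty := ⟨a₁, Finset.mem_filter.2 ⟨ha₁, hna₁⟩⟩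
      set X : Finset ℤ := H.image fun b => ((b / n : ℕ) : ℤ) with hX
      have hXc : X.card = H.card := by
        apply Finset.card_image_of_injOn
        intro b hb b' hb' hbb
        have hb1 := (Finset.mem_filter.1 (Finset.mem_coe.1 hb)).2
        have hb2 := (Finset.mem_filter.1 (Finset.mem_coe.1 hb')).2
        have h1 : b / n = b' / n := by
          have h2 : ((b / n : ℕ) : ℤ) = ((b' / n : ℕ) : ℤ) := hbb
          exact_mod_cast h2
        rw [← Nat.div_mul_cancel hb1, h1, Nat.div_mul_cancel hb2]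
      have hXn : X.Nonempty := hHn.image _
      have hθS : θ / (1 + M) * (Real.log X.card + Real.log B.card) ≤ wt n := by
        have h1 : Real.log X.card ≤ L := by
          rw [hXc]
          apply Real.log_le_log (by exact_mod_cast hHn.card_pos)
          exact_mod_cast Finset.card_le_card (Finset.filter_subset _ _)
        calc θ / (1 + M) * (Real.log X.card + Real.log B.card) ≤ θ / (1 + M) * ((1 + M) * L) :=
              mul_le_mul_of_nonneg_left (by linarith) (by positivity)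
          _ = θ * L := by field_simp
          _ ≤ _ := hn1
      obtain ⟨d, hd, hsum⟩ := hC n hn0 X B hXn hB hθS
      have hsub : dil (d : ℤ) X ⊆ dv A := by
        intro y hy
        unfold dil at hy
        obtain ⟨x, hx, rfl⟩ := Finset.mem_image.1 hy
        obtain ⟨b, hb, rfl⟩ := Finset.mem_image.1 hx
        obtain ⟨hb1, hb2⟩ := Finset.mem_filter.1 hb
        rw [mem_dv h0]
        refine ⟨d * (b / n), ⟨b, hb1, ?_⟩, by push_cast; rfl⟩
        obtain ⟨t, ht⟩ := hb2
        rw [ht, Nat.mul_div_cancel_left _ (Nat.pos_of_ne_zero hn0)]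
        exact Nat.mul_dvd_mul_right hd t
      have hge : Real.log ((dil (d : ℤ) X + B).card : ℝ) ≤ Real.log ((dv A + B).card : ℝ) := by
        have h1 : (dil (d : ℤ) X + B).Nonempty := (hXn.image _).add hB
        apply Real.log_le_log (by exact_mod_cast h1.card_pos)
        exact_mod_cast Finset.card_le_card (Finset.add_subset_add_right hsub)
      rw [hXc] at hsum
      have h2 : (1 - ε₁) * ((1 - ε₁) * L) ≤ (1 - ε₁) * Real.log (H.card : ℝ) :=
        mul_le_mul_of_nonneg_left hn3 (by linarith)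
      have h3 := le_max_left C (max L₀ 0)
      nlinarith [mul_nonneg hε10.le hL0, mul_nonneg hε10.le hB0,
        mul_nonneg (mul_nonneg hε10.le hε10.le) hL0]
    · push Not at hBM
      have h1 : (1 - ε) * (L + Real.log B.card) ≤ Real.log B.card := by
        have h2 : L ≤ ε * Real.log B.card := by
          calc L = ε * (M * L) := by rw [hM]; field_simp
            _ ≤ _ := mul_le_mul_of_nonneg_left hBM.le hε.le
        nlinarith [mul_nonneg hε.le hL0]
      have h3 : 0 ≤ max C (max L₀ 0) := (le_max_right _ _).trans (le_max_right _ _)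
      linarith
  · push Not at hL
    have h1 : L ≤ max C (max L₀ 0) := hL.le.trans ((le_max_left _ _).trans (le_max_right _ _))
    nlinarith [mul_nonneg hε.le hL0, mul_nonneg hε.le hB0]

/-- the `k`-fold product set -/
def kProd {M : Type*} [CommMonoid M] [DecidableEq M] (k : ℕ) (A : Finset M) : Finset M :=
  (Fintype.piFinset fun _ : Fin k => A).image fun f => ∏ i, f i

theorem kProd_eq (k : ℕ) (A : Finset ℕ) : kProd k A = (tup k A).image fun x => ∏ i, x i := by
  unfold kProd tup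
  congr

theorem kProd_nonempty {M : Type*} [CommMonoid M] [DecidableEq M] (k : ℕ) {A : Finset M}
    (hA : A.Nonempty) : (kProd k A).Nonempty := by
  unfold kProd
  rw [Finset.image_nonempty, Fintype.piFinset_nonempty]
  exact fun _ => hA

theorem few_log {A : Finset ℕ} (hA : A.Nonempty) {κ : ℝ} {a : ℕ} (ha : a ≠ 0)
    (h : (a.divisors.card : ℝ) ≤ (A.card : ℝ) ^ κ) : wt a ≤ κ * Real.log A.card := by
  have cA : (0 : ℝ) < A.card := by exact_mod_cast hA.card_pos
  have cD : (0 : ℝ) < a.divisors.card := by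
    have : (a.divisors).Nonempty := ⟨1, Nat.one_mem_divisors.2 ha⟩
    exact_mod_cast this.card_pos
  unfold wt
  rw [← Real.log_rpow cA]
  exact Real.log_le_log cD h

/-- the dichotomy -/
theorem dichotomy (k : ℕ) (hk : 0 < k) (δ ε κ : ℝ) (hδ : 0 < δ) (hε : 0 < ε) (hκ : 0 < κ) :
    ∃ c : ℝ, 0 < c ∧ ∀ A : Finset ℕ, A.Nonempty → 0 ∉ A →
      (∀ a ∈ A, (a.divisors.card : ℝ) ≤ (A.card : ℝ) ^ κ) →
      (A.card : ℝ) ^ ((k : ℝ) - δ) ≤ ((kProd k A).card : ℝ) ∨
      ∀ B : Finset ℤ, B.Nonempty →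
        c * ((A.card : ℝ) * B.card) ^ (1 - ε) ≤ ((dv A + B).card : ℝ) := by
  obtain ⟨C, hC0, hC⟩ := main k hk δ ε κ hδ hε hκ
  refine ⟨Real.exp (-C), Real.exp_pos _, fun A hA h0 hfew => ?_⟩
  have cA : (0 : ℝ) < A.card := by exact_mod_cast hA.card_pos
  have cP : (0 : ℝ) < ((kProd k A).card : ℝ) := by exact_mod_cast (kProd_nonempty k hA).card_pos
  by_cases h : (A.card : ℝ) ^ ((k : ℝ) - δ) ≤ ((kProd k A).card : ℝ)
  · exact Or.inl h
  right
  push Not at h
  intro B hB
  have cB : (0 : ℝ) < B.card := by exact_mod_cast hB.card_pos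
  have h1 : Real.log ((tup k A).image fun x => ∏ i, x i).card ≤ (k - δ) * Real.log A.card := by
    rw [← kProd_eq, ← Real.log_rpow cA]
    exact Real.log_le_log cP h.le
  have h2 := hC A hA h0 (fun a ha => few_log hA (fun h => h0 (h ▸ ha)) (hfew a ha)) h1 B hB
  have cS : (0 : ℝ) < ((dv A + B).card : ℝ) := by
    exact_mod_cast ((dv_nonempty hA h0).add hB).card_pos
  rw [Real.rpow_def_of_pos (by positivity), Real.log_mul cA.ne' cB.ne', ← Real.exp_add]
  calc Real.exp (-C + (Real.log A.card + Real.log B.card) * (1 - ε)) ≤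
        Real.exp (Real.log ((dv A + B).card : ℝ)) := Real.exp_le_exp.2 (by linarith)
    _ = _ := Real.exp_log cS

/-- sums of the divisors or products of the members -/
theorem kfold (k : ℕ) (ε κ : ℝ) (hε : 0 < ε) (hκ : 0 < κ) :
    ∃ c : ℝ, 0 < c ∧ ∀ A : Finset ℕ, A.Nonempty → 0 ∉ A →
      (∀ a ∈ A, (a.divisors.card : ℝ) ≤ (A.card : ℝ) ^ κ) →
      c * (A.card : ℝ) ^ ((k : ℝ) - ε) ≤
        max ((kSum k (A.biUnion Nat.divisors)).card : ℝ) ((kProd k A).card : ℝ) := by
  rcases Nat.eq_zero_or_pos k with rfl | hk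
  · refine ⟨1, one_pos, fun A hA _ _ => ?_⟩
    have h1 : (1 : ℝ) ≤ ((kProd 0 A).card : ℝ) := by
      exact_mod_cast (kProd_nonempty 0 hA).card_pos
    have h2 : (1 : ℝ) ≤ A.card := by exact_mod_cast hA.card_pos
    have h3 : (A.card : ℝ) ^ (((0 : ℕ) : ℝ) - ε) ≤ 1 := by
      rw [Nat.cast_zero, zero_sub]
      exact Real.rpow_le_one_of_one_le_of_nonpos h2 (by linarith)
    rw [one_mul]
    exact h3.trans (h1.trans (le_max_right _ _))
  have hk0 : (0 : ℝ) < k := by exact_mod_cast hk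
  have hk1 : (1 : ℝ) ≤ k := by exact_mod_cast hk
  set ε' : ℝ := min ε 1 / k ^ 2 with hε'
  have hε'0 : 0 < ε' := by positivity
  have hε'1 : ε' ≤ 1 := by
    rw [hε', div_le_one (by positivity)]
    exact (min_le_right _ _).trans (one_le_pow₀ hk1)
  have hε'k : ε' * k ^ 2 ≤ ε := by
    rw [hε', div_mul_cancel₀ _ (by positivity)]
    exact min_le_left _ _
  obtain ⟨C, hC0, hC⟩ := main k hk ε ε' κ hε hε'0 hκ
  refine ⟨Real.exp (-(k * C)), Real.exp_pos _, fun A hA h0 hfew => ?_⟩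
  have cA : (0 : ℝ) < A.card := by exact_mod_cast hA.card_pos
  have cP : (0 : ℝ) < ((kProd k A).card : ℝ) := by exact_mod_cast (kProd_nonempty k hA).card_pos
  by_cases h : (A.card : ℝ) ^ ((k : ℝ) - ε) ≤ ((kProd k A).card : ℝ)
  · have h1 : Real.exp (-(k * C)) ≤ 1 := by
      rw [Real.exp_le_one_iff]
      have : 0 ≤ k * C := by positivity
      linarith
    calc Real.exp (-(k * C)) * (A.card : ℝ) ^ ((k : ℝ) - ε) ≤ 1 * (A.card : ℝ) ^ ((k : ℝ) - ε) :=
          mul_le_mul_of_nonneg_right h1 (by positivity)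
      _ ≤ _ := by rw [one_mul]; exact h.trans (le_max_right _ _)
  push Not at h
  have h1 : Real.log ((tup k A).image fun x => ∏ i, x i).card ≤ (k - ε) * Real.log A.card := by
    rw [← kProd_eq, ← Real.log_rpow cA]
    exact Real.log_le_log cP h.le
  have hL : 0 ≤ Real.log A.card := Real.log_natCast_nonneg _
  have h2 := kSum_ge (dv_nonempty hA h0) hL hε'0.le hε'1 hC0
    (hC A hA h0 (fun a ha => few_log hA (fun h => h0 (h ▸ ha)) (hfew a ha)) h1) k
  have hDn : (A.biUnion Nat.divisors).Nonempty := by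
    obtain ⟨z, hz⟩ := dv_nonempty hA h0
    unfold dv at hz
    obtain ⟨d, hd, _⟩ := Finset.mem_image.1 hz
    exact ⟨d, hd⟩
  have cS : 0 < (kSum k (A.biUnion Nat.divisors)).card := (kSum_nonempty k hDn).card_pos
  have h3 : Real.log ((kSum k (dv A)).card : ℝ) ≤
      Real.log ((kSum k (A.biUnion Nat.divisors)).card : ℝ) := by
    apply Real.log_le_log
    · exact_mod_cast (kSum_nonempty k (dv_nonempty hA h0)).card_pos
    · exact_mod_cast kSum_cast k (A.biUnion Nat.divisors)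
  have h4 : ((k : ℝ) - ε) * Real.log A.card - k * C ≤
      Real.log ((kSum k (A.biUnion Nat.divisors)).card : ℝ) := by
    have h5 : ((k : ℝ) - ε) * Real.log A.card ≤ ((k : ℝ) - ε' * k ^ 2) * Real.log A.card :=
      mul_le_mul_of_nonneg_right (by linarith) hL
    linarith
  exact (pow_of_log cS hA.card_pos h4).trans (le_max_left _ _)

/-- closed under divisors: the union of the divisors is the set itself -/
theorem closed_biUnion {A : Finset ℕ} (h0 : 0 ∉ A) (hd : ∀ a ∈ A, ∀ d, d ∣ a → d ∈ A) :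
    A.biUnion Nat.divisors = A := by
  ext z
  rw [Finset.mem_biUnion]
  constructor
  · rintro ⟨a, ha, hz⟩
    exact hd a ha z (Nat.dvd_of_mem_divisors hz)
  · intro hz
    exact ⟨z, hz, Nat.mem_divisors.2 ⟨dvd_rfl, fun h => h0 (h ▸ hz)⟩⟩

theorem closed_zero {A : Finset ℕ} (hd : ∀ a ∈ A, ∀ d, d ∣ a → d ∈ A) : 0 ∉ A := by
  intro h
  obtain ⟨M, hM⟩ := A.bddAbove
  have h1 : M + 1 ∈ A := hd 0 h _ (dvd_zero _)
  have := hM (Finset.mem_coe.2 h1)
  omega

theorem closed_few {A : Finset ℕ} (hd : ∀ a ∈ A, ∀ d, d ∣ a → d ∈ A) :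
    ∀ a ∈ A, (a.divisors.card : ℝ) ≤ (A.card : ℝ) ^ (1 : ℝ) := by
  intro a ha
  rw [Real.rpow_one]
  exact_mod_cast Finset.card_le_card fun d hdd => hd a ha d (Nat.dvd_of_mem_divisors hdd)

end Pool.Agent.TH83.DC
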