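import Pool.Agent.TH263.DC2344
import Pool.Agent.TH558.DC2345
import Pool.Agent.TH991.DC2346
import Pool.Agent.TH148.DC2347
import Pool.Agent.TH148.DC2348
import Pool.Agent.TH558.DC2349
import Pool.Agent.TH606.DC2350
import Pool.Agent.TH150.DC2351
import Pool.Agent.TH929.DC2352
import Pool.Agent.TH991.DC2353
import Pool.Agent.TH929.DC2354

/-!
The ingredients (proved by helper263, helper558, helper991, helper148, helper606, helper150,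
helper929).
-/

set_option autoImplicit false

namespace Pool.Agent.TH83.DC

open Finset
open Pool.Agent.TH83.SQ (cls dil)
open scoped Pointwise Classical

theorem wt_nonneg (a : ℕ) : 0 ≤ wt a :=
  Pool.Agent.TH263.DC2344.wt_nonneg a

theorem wt_one : wt 1 = 0 :=
  Pool.Agent.TH263.DC2344.wt_one

theorem wt_mul_le (a b : ℕ) : wt (a * b) ≤ wt a + wt b :=
  Pool.Agent.TH263.DC2344.wt_mul_le a b

theorem wt_prod_le {ι : Type*} (s : Finset ι) (f : ι → ℕ) : wt (∏ i ∈ s, f i) ≤ ∑ i ∈ s, wt (f i) :=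
  Pool.Agent.TH263.DC2344.wt_prod_le s f

theorem wt_mono {a b : ℕ} (hb : b ≠ 0) (h : a ∣ b) : wt a ≤ wt b :=
  Pool.Agent.TH263.DC2344.wt_mono hb h

theorem wt_interp {g : ℕ} (hg : g ≠ 0) {s : ℝ} (h0 : 0 ≤ s) (h1 : s ≤ wt g) :
    ∃ n, n ∣ g ∧ s ≤ wt n ∧ wt n ≤ s + Real.log 2 :=
  Pool.Agent.TH263.DC2344.wt_interp hg h0 h1

theorem few_small (ω : ℝ) (hω : 0 < ω) : ∃ u₀ : ℝ, 0 < u₀ ∧ ∀ a : ℕ, a ≠ 0 → ∀ K : ℝ, wt a ≤ K →
    ((a.divisors.filter fun d => wt d ≤ u₀ * K).card : ℝ) ≤ Real.exp (ω * K) :=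
  Pool.Agent.TH558.DC2345.few_small ω hω

theorem refine_exists {ι κ : Type} [Fintype ι] [Fintype κ] (x : ι → ℕ) (y : κ → ℕ)
    (hx : ∀ i, x i ≠ 0) (hy : ∀ j, y j ≠ 0) (h : ∏ i, x i = ∏ j, y j) :
    ∃ R : ι → κ → ℕ, (∀ i, ∏ j, R i j = x i) ∧ ∀ j, ∏ i, R i j = y j :=
  Pool.Agent.TH991.DC2346.refine_exists x y hx hy h

theorem expt_base (A : Finset ℕ) (hA : A.Nonempty) : ∃ E : Expt A, Fintype.card E.Λ = 1 :=
  Pool.Agent.TH148.DC2347.expt_base A hA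

theorem expt_step {A : Finset ℕ} (hA : A.Nonempty) (E : Expt A) (k : ℕ) (hk : 0 < k)
    (R : (Fin k → E.Ω) → (Fin k → ℕ) → Fin k → E.Λ → Fin k → ℕ)
    (hR1 : ∀ z, ∀ y ∈ rep A (fun i => E.root (z i)), ∀ i l, ∏ j, R z y i l j = E.piece (z i) l)
    (hR2 : ∀ z, ∀ y ∈ rep A (fun i => E.root (z i)), ∀ j, ∏ i, ∏ l, R z y i l j = y j) :
    ∃ E' : Expt A, Fintype.card E'.Λ = k * Fintype.card E.Λ ∧
      E'.pot = (∑ z : Fin k → E.Ω, (∏ i, E.w (z i)) *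
        ((∑ y ∈ rep A (fun i => E.root (z i)), ∑ i, ∑ l, ∑ j, Real.sqrt (wt (R z y i l j))) /
            (rep A (fun i => E.root (z i))).card)) / k :=
  Pool.Agent.TH148.DC2347.expt_step hA E k hk R hR1 hR2

theorem expt_union {A : Finset ℕ} (hA : A.Nonempty) (h0 : 0 ∉ A) (E : Expt A) (m : ℕ) (v ρ : ℝ)
    (hρ : ∀ a ∈ A, ((A.filter fun b => v ≤ wt (Nat.gcd a b)).card : ℝ) ≤ ρ * A.card)
    (hρ0 : 0 ≤ ρ) :
    E.many m v ≤ 2 ^ Fintype.card E.Λ * A.card * ρ ^ m :=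
  Pool.Agent.TH148.DC2348.expt_union hA h0 E m v ρ hρ hρ0

theorem expt_pot_le {A : Finset ℕ} (hA : A.Nonempty) (h0 : 0 ∉ A) (E : Expt A) (m : ℕ) (v K : ℝ)
    (hv : 0 ≤ v) (hK : ∀ a ∈ A, wt a ≤ K) :
    E.pot ≤ m * Real.sqrt K + Fintype.card E.Λ * Real.sqrt v +
      E.many m v * (Fintype.card E.Λ * Real.sqrt K) :=
  Pool.Agent.TH148.DC2348.expt_pot_le hA h0 E m v K hv hK

theorem rare (k : ℕ) (A : Finset ℕ) (M : ℝ) (hM : 0 ≤ M) :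
    (((tup k A).filter fun x => ((rep A x).card : ℝ) < M).card : ℝ) ≤
      ((tup k A).image fun x => ∏ i, x i).card * M :=
  Pool.Agent.TH148.DC2348.rare k A M hM

theorem count_trivial {k : ℕ} {Λ : Type} [Fintype Λ] (x : Fin k → ℕ) (hx0 : ∀ i, x i ≠ 0)
    (π : Fin k → Λ → ℕ) (hπ : ∀ i, ∏ l, π i l = x i) (Y : Finset (Fin k → ℕ))
    (R : (Fin k → ℕ) → Fin k → Λ → Fin k → ℕ)
    (hR1 : ∀ y ∈ Y, ∀ i l, ∏ j, R y i l j = π i l)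
    (hR2 : ∀ y ∈ Y, ∀ j, ∏ i, ∏ l, R y i l j = y j)
    (u v η : ℝ) (hu : 0 < u) (hv : 0 < v) (m : ℕ)
    (hm : ∀ i, (Finset.univ.filter fun l => v ≤ wt (π i l)).card ≤ m)
    (hη : m * (k * u) + Fintype.card Λ * v ≤ η) (W : ℝ)
    (hW : ∀ i, (((x i).divisors.filter fun d => wt d ≤ η).card : ℝ) ≤ W)
    (htriv : ∀ y ∈ Y, ∀ i l, Triv u (R y i l)) :
    (Y.card : ℝ) ≤ ((k : ℝ) ^ m * W ^ (2 * k)) ^ k :=
  Pool.Agent.TH558.DC2349.count_trivial x hx0 π hπ Y R hR1 hR2 u v η hu hv m hm hη W hW htriv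

theorem gain_core {A : Finset ℕ} (hA : A.Nonempty) (h0 : 0 ∉ A) (E : Expt A) (k : ℕ) (hk : 0 < k)
    (R : (Fin k → E.Ω) → (Fin k → ℕ) → Fin k → E.Λ → Fin k → ℕ)
    (hR1 : ∀ z, ∀ y ∈ rep A (fun i => E.root (z i)), ∀ i l, ∏ j, R z y i l j = E.piece (z i) l)
    (u v K M : ℝ) (m : ℕ) (hu : 0 < u) (hK : ∀ a ∈ A, wt a ≤ K) (huK : 2 * u ≤ K)
    (hcount : ∀ z : Fin k → E.Ω,
      (∀ i, (Finset.univ.filter fun l => v ≤ wt (E.piece (z i) l)).card ≤ m) →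
      (((rep A fun i => E.root (z i)).filter fun y => ∀ i l, Triv u (R z y i l)).card : ℝ) ≤
        M / 2)
    (p : ℝ) (hp : E.many (m + 1) v ≤ p)
    (hrare : (((tup k A).filter fun x => ((rep A x).card : ℝ) < M).card : ℝ) ≤
      p * (A.card : ℝ) ^ k) :
    E.pot + (1 - (k + 1) * p) / (2 * k) * (u / Real.sqrt (2 * K)) ≤
      (∑ z : Fin k → E.Ω, (∏ i, E.w (z i)) *
        ((∑ y ∈ rep A (fun i => E.root (z i)), ∑ i, ∑ l, ∑ j, Real.sqrt (wt (R z y i l j))) /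
            (rep A (fun i => E.root (z i))).card)) / k :=
  Pool.Agent.TH606.DC2350.gain_core hA h0 E k hk R hR1 u v K M m hu hK huK hcount p hp hrare

theorem gibbs (Q : ℤ) {X B : Finset ℤ} (hX : X.Nonempty) (hB : B.Nonempty) :
    jent Q X B + (∑ x ∈ X, ∑ b ∈ B, Real.log ((cls Q X x + cls Q B b).card : ℝ)) /
      (X.card * B.card) ≤ Real.log ((X + B).card : ℝ) :=
  Pool.Agent.TH150.DC2351.gibbs Q hX hB

theorem jent_left (Q : ℤ) {X B : Finset ℤ} (hX : X.Nonempty) (hB : B.Nonempty) :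
    ent Q X ≤ jent Q X B :=
  Pool.Agent.TH929.DC2352.jent_left Q hX hB

theorem jent_right (Q : ℤ) {X B : Finset ℤ} (hX : X.Nonempty) (hB : B.Nonempty) :
    ent Q B ≤ jent Q X B :=
  Pool.Agent.TH929.DC2352.jent_right Q hX hB

theorem jent_small (δ : ℝ) (hδ : 0 < δ) : ∃ C : ℝ, 0 < C ∧ ∀ (Q : ℤ) (X B : Finset ℤ),
    X.Nonempty → B.Nonempty →
    (1 - δ) * (ent Q X + ent Q B) - C * (ent Q X * ent Q B) ≤ jent Q X B :=
  Pool.Agent.TH929.DC2352.jent_small δ hδ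

theorem ent_nonneg (Q : ℤ) (X : Finset ℤ) : 0 ≤ ent Q X :=
  Pool.Agent.TH991.DC2353.ent_nonneg Q X

theorem ent_one (X : Finset ℤ) : ent 1 X = 0 :=
  Pool.Agent.TH991.DC2353.ent_one X

theorem ent_le (Q : ℤ) (X : Finset ℤ) : ent Q X ≤ Real.log X.card :=
  Pool.Agent.TH991.DC2353.ent_le Q X

theorem sum_cls (Q : ℤ) (X : Finset ℤ) (f : ℤ → ℝ) :
    ∑ x ∈ X, (∑ x' ∈ cls Q X x, f x') / (cls Q X x).card = ∑ x ∈ X, f x :=
  Pool.Agent.TH991.DC2353.sum_cls Q X f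

theorem mean_log_cls (Q : ℤ) {X : Finset ℤ} (hX : X.Nonempty) :
    (∑ x ∈ X, Real.log ((cls Q X x).card : ℝ)) / X.card = Real.log X.card - ent Q X :=
  Pool.Agent.TH991.DC2353.mean_log_cls Q hX

theorem ent_chain {Q Q' : ℤ} (h : Q ∣ Q') {X : Finset ℤ} (hX : X.Nonempty) :
    (∑ x ∈ X, ent Q' (cls Q X x)) / X.card = ent Q' X - ent Q X :=
  Pool.Agent.TH991.DC2353.ent_chain h hX

theorem ent_mono {Q Q' : ℤ} (h : Q ∣ Q') (X : Finset ℤ) : ent Q X ≤ ent Q' X :=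
  Pool.Agent.TH991.DC2353.ent_mono h X

theorem cls_large {p : ℕ} (hp : 2 ≤ p) (X : Finset ℤ) :
    ∃ J₀ : ℕ, ∀ J, J₀ ≤ J → ∀ x ∈ X, cls ((p : ℤ) ^ J) X x = {x} :=
  Pool.Agent.TH991.DC2353.cls_large hp X

theorem cls_cls {Q Q' : ℤ} (h : Q ∣ Q') {X : Finset ℤ} {x x' : ℤ} (hx' : x' ∈ cls Q X x) :
    cls Q' (cls Q X x) x' = cls Q' X x' :=
  Pool.Agent.TH991.DC2353.cls_cls h hx'

theorem cls_dil {p : ℕ} (hp : p.Prime) {d : ℤ} (hd : IsCoprime d (p : ℤ)) (i l : ℕ)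
    (X : Finset ℤ) (x : ℤ) :
    cls ((p : ℤ) ^ l) (dil (d * (p : ℤ) ^ i) X) (d * (p : ℤ) ^ i * x) =
      dil (d * (p : ℤ) ^ i) (cls ((p : ℤ) ^ (l - i)) X x) :=
  Pool.Agent.TH991.DC2353.cls_dil hp hd i l X x

theorem ent_dil {p : ℕ} (hp : p.Prime) {d : ℤ} (hd : IsCoprime d (p : ℤ)) (hd0 : d ≠ 0)
    (i l : ℕ) (X : Finset ℤ) :
    ent ((p : ℤ) ^ l) (dil (d * (p : ℤ) ^ i) X) = ent ((p : ℤ) ^ (l - i)) X :=
  Pool.Agent.TH991.DC2353.ent_dil hp hd hd0 i l X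

theorem levels (HX HB : ℕ → ℝ) (hX : Monotone HX) (hB : Monotone HB) (hX0 : HX 0 = 0)
    (hB0 : HB 0 = 0) (g C : ℝ) (hg : 0 ≤ g) (hC : 0 ≤ C) (e : ℕ)
    (hex : (∃ l, g < HX l) ∨ ∃ l, g < HB l) :
    ∃ (L : ℕ → ℕ) (S : Finset ℕ), S ⊆ Finset.range (e + 1) ∧ e ≤ S.card ∧
      (∀ i ∈ S, 1 ≤ L i ∧ g ≤ HX (L i - i) + HB (L i)) ∧
      ∑ i ∈ S, (C * ∑ l ∈ Finset.range (L i - 1),
        (HX (l + 1 - i) - HX (l - i)) * (HB (l + 1) - HB l) +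
        min (HX (L i - i) - HX (L i - 1 - i)) (HB (L i) - HB (L i - 1))) ≤
        C * g ^ 2 + 2 * g :=
  Pool.Agent.TH929.DC2354.levels HX HB hX hB hX0 hB0 g C hg hC e hex

theorem levels_small (HX HB : ℕ → ℝ) (hX : Monotone HX) (hB : Monotone HB) (hX0 : HX 0 = 0)
    (hB0 : HB 0 = 0) (a b : ℝ) (ha : ∀ l, HX l ≤ a) (hb : ∀ l, HB l ≤ b) (e M : ℕ) :
    ∑ i ∈ Finset.range (e + 1), ∑ l ∈ Finset.range M,
        (HX (l + 1 - i) - HX (l - i)) * (HB (l + 1) - HB l) ≤ a * b :=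
  Pool.Agent.TH929.DC2354.levels_small HX HB hX hB hX0 hB0 a b ha hb e M

end Pool.Agent.TH83.DC
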