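import Pool.Agent.TH83.SQ.Defs

/-!
Entropies of residues of finite sets of integers, and of sums.
-/

set_option autoImplicit false

namespace Pool.Agent.TH83.DC

open Finset
open Pool.Agent.TH83.SQ (cls dil)
open scoped Pointwise

/-- the entropy of the residue modulo `Q` of a random element of `X` -/
noncomputable def ent (Q : ℤ) (X : Finset ℤ) : ℝ :=
  (∑ x ∈ X, Real.log ((X.card : ℝ) / (cls Q X x).card)) / X.card

/-- the number of pairs with `x + b` congruent to `z` modulo `Q` -/
def jn (Q : ℤ) (X B : Finset ℤ) (z : ℤ) : ℕ :=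
  ((X ×ˢ B).filter fun w => Q ∣ w.1 + w.2 - z).card

/-- the entropy of the residue modulo `Q` of `x + b` for random `x` in `X` and `b` in `B` -/
noncomputable def jent (Q : ℤ) (X B : Finset ℤ) : ℝ :=
  (∑ x ∈ X, ∑ b ∈ B, Real.log ((X.card : ℝ) * B.card / jn Q X B (x + b))) / (X.card * B.card)

/-- the mean over the divisors `d` of `n` of `log |d X + B|` -/
noncomputable def T (n : ℕ) (X B : Finset ℤ) : ℝ :=
  (∑ d ∈ n.divisors, Real.log ((dil (d : ℤ) X + B).card : ℝ)) / n.divisors.card

end Pool.Agent.TH83.DC
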