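import Pool.Agent.TH83.DC.SStep

/-!
Sums with dilates by the divisors of a number with large exponents: the induction over the primes.
-/

set_option autoImplicit false

namespace Pool.Agent.TH83.DC

open Finset
open Pool.Agent.TH83.SQ (cls dil)
open scoped Pointwise Classical

theorem sum_divisors_coprime {m n : ℕ} (h : m.Coprime n) (f : ℕ → ℝ) :
    ∑ d ∈ (m * n).divisors, f d = ∑ a ∈ m.divisors, ∑ b ∈ n.divisors, f (a * b) := by
  have h1 : (m * n).divisors = (m.divisors ×ˢ n.divisors).image fun x => x.1 * x.2 := by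
    rw [Nat.divisors_mul]
    rfl
  have h2 : Set.InjOn (fun x : ℕ × ℕ => x.1 * x.2) (m.divisors ×ˢ n.divisors : Finset (ℕ × ℕ)) := by
    rw [← Finset.card_image_iff, ← h1, h.card_divisors_mul, Finset.card_product]
  rw [h1, Finset.sum_image h2, Finset.sum_product]

theorem T_mul {p : ℕ} (hp : p.Prime) {n : ℕ} (hcop : n.Coprime p) (e : ℕ)
    (X B : Finset ℤ) :
    T (p ^ e * n) X B =
      (∑ i ∈ Finset.range (e + 1), T n (dil ((p : ℤ) ^ i) X) B) / (e + 1) := by
  have hc : (p ^ e).Coprime n := Nat.Coprime.pow_left _ hcop.symm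
  unfold T
  rw [sum_divisors_coprime hc fun d => Real.log ((dil (d : ℤ) X + B).card : ℝ),
    hc.card_divisors_mul, Nat.divisors_prime_pow hp, Finset.card_map, Finset.card_range,
    Finset.sum_map, ← Finset.sum_div, div_div]
  congr 1
  · refine Finset.sum_congr rfl fun i _ => Finset.sum_congr rfl fun d _ => ?_
    rw [dil_dil]
    simp only [Function.Embedding.coeFn_mk, Nat.cast_mul, Nat.cast_pow]
    rw [mul_comm]
  · push_cast; ring

/-- the first levels -/
theorem EE_tele {p : ℕ} (hp : p.Prime) {n : ℕ} (hn : n ≠ 0) (hcop : n.Coprime p)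
    {X B : Finset ℤ} (hX : X.Nonempty) (hB : B.Nonempty) (i : ℕ) {δ C : ℝ}
    (hsmall : ∀ (Q : ℤ) (X B : Finset ℤ), X.Nonempty → B.Nonempty →
      (1 - δ) * (ent Q X + ent Q B) - C * (ent Q X * ent Q B) ≤ jent Q X B) (L : ℕ) :
    (1 - δ) * (ent ((p : ℤ) ^ (L - i)) X + ent ((p : ℤ) ^ L) B) -
      C * (∑ l ∈ Finset.range L, (ent ((p : ℤ) ^ (l + 1 - i)) X - ent ((p : ℤ) ^ (l - i)) X) *
        (ent ((p : ℤ) ^ (l + 1)) B - ent ((p : ℤ) ^ l) B)) + EE p n X B i L ≤
      T n (dil ((p : ℤ) ^ i) X) B := by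
  induction L with
  | zero =>
    rw [EE_zero p n hX hB i, Nat.zero_sub, pow_zero, ent_one, ent_one]
    simp
  | succ L ih =>
    have h1 := (EE_step hp hn hcop hX hB i L hsmall).1
    rw [Finset.sum_range_succ]
    linarith

/-- all the levels, with another bound at the last one -/
theorem EE_last {p : ℕ} (hp : p.Prime) {n : ℕ} (hn : n ≠ 0) (hcop : n.Coprime p)
    {X B : Finset ℤ} (hX : X.Nonempty) (hB : B.Nonempty) (i : ℕ) {δ C : ℝ} (hδ : 0 ≤ δ)
    (hsmall : ∀ (Q : ℤ) (X B : Finset ℤ), X.Nonempty → B.Nonempty →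
      (1 - δ) * (ent Q X + ent Q B) - C * (ent Q X * ent Q B) ≤ jent Q X B) (L : ℕ) (hL : 1 ≤ L) :
    (1 - δ) * (ent ((p : ℤ) ^ (L - i)) X + ent ((p : ℤ) ^ L) B) -
      (C * (∑ l ∈ Finset.range (L - 1),
        (ent ((p : ℤ) ^ (l + 1 - i)) X - ent ((p : ℤ) ^ (l - i)) X) *
        (ent ((p : ℤ) ^ (l + 1)) B - ent ((p : ℤ) ^ l) B)) +
        min (ent ((p : ℤ) ^ (L - i)) X - ent ((p : ℤ) ^ (L - 1 - i)) X)
          (ent ((p : ℤ) ^ L) B - ent ((p : ℤ) ^ (L - 1)) B)) + EE p n X B i L ≤
      T n (dil ((p : ℤ) ^ i) X) B := by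
  obtain ⟨M, rfl⟩ : ∃ M, L = M + 1 := ⟨L - 1, by omega⟩
  have h0 := EE_tele hp hn hcop hX hB i hsmall M
  obtain ⟨-, h1, h2⟩ := EE_step hp hn hcop hX hB i M hsmall
  rw [Nat.add_sub_cancel]
  set a := ent ((p : ℤ) ^ (M + 1 - i)) X
  set a' := ent ((p : ℤ) ^ (M - i)) X
  set b := ent ((p : ℤ) ^ (M + 1)) B
  set b' := ent ((p : ℤ) ^ M) B
  have ha : a' ≤ a := ent_mono (pow_dvd_pow _ (by omega)) X
  have hb : b' ≤ b := ent_mono (pow_dvd_pow _ (by omega)) B
  have h3 : a - a' + (b - b') - min (a - a') (b - b') + EE p n X B i (M + 1) ≤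
      EE p n X B i M := by
    rcases min_choice (a - a') (b - b') with h | h <;> rw [h] <;> linarith
  have h4 : 0 ≤ δ * (a - a' + (b - b')) := mul_nonneg hδ (by linarith)
  linarith

/-- `log |X| + log |B|` -/
noncomputable def Sz (X B : Finset ℤ) : ℝ := Real.log X.card + Real.log B.card

theorem Sz_nonneg (X B : Finset ℤ) : 0 ≤ Sz X B :=
  add_nonneg (Real.log_natCast_nonneg _) (Real.log_natCast_nonneg _)

/-- the mean over the classes, by the induction hypothesis -/
theorem EE_lower {p : ℕ} (hp : p.Prime) {n : ℕ} {X B : Finset ℤ} (hX : X.Nonempty)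
    (hB : B.Nonempty) (i L : ℕ) {a G : ℝ} (hG : 0 < G)
    (ih : ∀ X B : Finset ℤ, X.Nonempty → B.Nonempty → a * Sz X B - Sz X B ^ 2 / G ≤ T n X B) :
    (a - Sz X B / G) * (Sz X B - (ent ((p : ℤ) ^ (L - i)) X + ent ((p : ℤ) ^ L) B)) ≤
      EE p n X B i L := by
  have cX : (0 : ℝ) < X.card := by exact_mod_cast hX.card_pos
  have cB : (0 : ℝ) < B.card := by exact_mod_cast hB.card_pos
  have hp0 : (p : ℤ) ^ i ≠ 0 := pow_ne_zero _ (by exact_mod_cast hp.ne_zero)
  set f : ℤ → ℝ := fun x => Real.log ((cls ((p : ℤ) ^ (L - i)) X x).card : ℝ) with hf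
  set g : ℤ → ℝ := fun b => Real.log ((cls ((p : ℤ) ^ L) B b).card : ℝ) with hg
  have h1 : ∀ x ∈ X, ∀ b ∈ B, (a - Sz X B / G) * (f x + g b) ≤
      T n (dil ((p : ℤ) ^ i) (cls ((p : ℤ) ^ (L - i)) X x)) (cls ((p : ℤ) ^ L) B b) := by
    intro x hx b hb
    have hn1 := cls_pos ((p : ℤ) ^ (L - i)) hx
    have hn2 := cls_pos ((p : ℤ) ^ L) hb
    have h2 := ih (dil ((p : ℤ) ^ i) (cls ((p : ℤ) ^ (L - i)) X x)) (cls ((p : ℤ) ^ L) B b)
      (hn1.image _) hn2
    have h3 : Sz (dil ((p : ℤ) ^ i) (cls ((p : ℤ) ^ (L - i)) X x)) (cls ((p : ℤ) ^ L) B b) =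
        f x + g b := by
      unfold Sz
      rw [card_dil hp0]
    rw [h3] at h2
    refine le_trans ?_ h2
    have h4 : f x + g b ≤ Sz X B := by
      unfold Sz
      apply add_le_add
      · exact Real.log_le_log (by exact_mod_cast hn1.card_pos)
          (by exact_mod_cast Finset.card_le_card (Finset.filter_subset _ _))
      · exact Real.log_le_log (by exact_mod_cast hn2.card_pos)
          (by exact_mod_cast Finset.card_le_card (Finset.filter_subset _ _))
    have h5 : 0 ≤ f x + g b :=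
      add_nonneg (Real.log_natCast_nonneg _) (Real.log_natCast_nonneg _)
    have h6 : (f x + g b) ^ 2 / G ≤ Sz X B / G * (f x + g b) := by
      rw [div_mul_eq_mul_div]
      apply div_le_div_of_nonneg_right _ hG.le
      nlinarith
    rw [sub_mul]
    linarith
  have h2 := Finset.sum_le_sum fun x hx => Finset.sum_le_sum fun b hb => h1 x hx b hb
  have h3 : ∑ x ∈ X, ∑ b ∈ B, (a - Sz X B / G) * (f x + g b) =
      (a - Sz X B / G) * ((∑ x ∈ X, f x) * B.card + X.card * ∑ b ∈ B, g b) := by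
    simp only [← Finset.mul_sum, Finset.sum_add_distrib, Finset.sum_const, nsmul_eq_mul,
      ← Finset.sum_mul]
    ring
  have h4 : Sz X B - (ent ((p : ℤ) ^ (L - i)) X + ent ((p : ℤ) ^ L) B) =
      ((∑ x ∈ X, f x) * B.card + X.card * ∑ b ∈ B, g b) / (X.card * B.card) := by
    have e1 := mean_log_cls ((p : ℤ) ^ (L - i)) hX
    have e2 := mean_log_cls ((p : ℤ) ^ L) hB
    unfold Sz
    rw [add_div, mul_div_mul_right _ _ cB.ne', mul_div_mul_left _ _ cX.ne', e1, e2]
    ring
  rw [h4, ← mul_div_assoc, ← h3]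
  unfold EE
  exact div_le_div_of_nonneg_right h2 (by positivity)

theorem ent_large {p : ℕ} (hp : p.Prime) (X : Finset ℤ) :
    ∃ J₀ : ℕ, ∀ J, J₀ ≤ J → ent ((p : ℤ) ^ J) X = Real.log X.card := by
  obtain ⟨J₀, h⟩ := cls_large hp.two_le X
  refine ⟨J₀, fun J hJ => ?_⟩
  unfold ent
  rcases X.eq_empty_or_nonempty with rfl | hX
  · simp
  have cX : (0 : ℝ) < X.card := by exact_mod_cast hX.card_pos
  rw [Finset.sum_congr rfl fun x hx => by rw [h J hJ x hx, Finset.card_singleton, Nat.cast_one,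
    div_one], Finset.sum_const, nsmul_eq_mul]
  field_simp

/-- one prime, small sets -/
theorem T_small {p : ℕ} (hp : p.Prime) {n : ℕ} (hn : n ≠ 0) (hcop : n.Coprime p)
    {X B : Finset ℤ} (hX : X.Nonempty) (hB : B.Nonempty) (e : ℕ) {δ C : ℝ} (hC : 0 ≤ C)
    (hsmall : ∀ (Q : ℤ) (X B : Finset ℤ), X.Nonempty → B.Nonempty →
      (1 - δ) * (ent Q X + ent Q B) - C * (ent Q X * ent Q B) ≤ jent Q X B) :
    (1 - δ) * Sz X B - C * (Real.log X.card * Real.log B.card) / (e + 1) ≤
      T (p ^ e * n) X B := by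
  obtain ⟨J₁, h1⟩ := ent_large hp X
  obtain ⟨J₂, h2⟩ := ent_large hp B
  set M : ℕ := J₁ + J₂ + e + 1 with hM
  have hEE : ∀ i, 0 ≤ EE p n X B i M := fun i => by
    unfold EE
    exact div_nonneg (Finset.sum_nonneg fun x _ => Finset.sum_nonneg fun b _ => T_nonneg _ _ _)
      (by positivity)
  have h3 : ∀ i ∈ Finset.range (e + 1), (1 - δ) * Sz X B - C * (∑ l ∈ Finset.range M,
      (ent ((p : ℤ) ^ (l + 1 - i)) X - ent ((p : ℤ) ^ (l - i)) X) *
        (ent ((p : ℤ) ^ (l + 1)) B - ent ((p : ℤ) ^ l) B)) ≤ T n (dil ((p : ℤ) ^ i) X) B := by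
    intro i hi
    rw [Finset.mem_range] at hi
    have h4 := EE_tele hp hn hcop hX hB i hsmall M
    rw [h1 (M - i) (by omega), h2 M (by omega)] at h4
    have := hEE i
    unfold Sz
    linarith
  have h4 := Finset.sum_le_sum h3
  rw [Finset.sum_sub_distrib, Finset.sum_const, Finset.card_range, nsmul_eq_mul,
    ← Finset.mul_sum] at h4
  have h5 := levels_small (fun l => ent ((p : ℤ) ^ l) X) (fun l => ent ((p : ℤ) ^ l) B)
    (fun a b hab => ent_mono (pow_dvd_pow _ hab) X)
    (fun a b hab => ent_mono (pow_dvd_pow _ hab) B)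
    (by simp only [pow_zero]; exact ent_one X) (by simp only [pow_zero]; exact ent_one B)
    (Real.log X.card) (Real.log B.card) (fun l => ent_le _ _) (fun l => ent_le _ _) e M
  have h6 := mul_le_mul_of_nonneg_left h5 hC
  rw [T_mul hp hcop, le_div_iff₀ (by positivity), sub_mul, div_mul_cancel₀ _ (by positivity)]
  push_cast at h4
  linarith

/-- the induction over the primes -/
theorem T_ge {δ C : ℝ} (hδ : 0 < δ) (hC : 0 < C)
    (hsmall : ∀ (Q : ℤ) (X B : Finset ℤ), X.Nonempty → B.Nonempty →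
      (1 - δ) * (ent Q X + ent Q B) - C * (ent Q X * ent Q B) ≤ jent Q X B)
    (E₁ : ℕ) (hE₁ : 2 ≤ δ * E₁) (e : ℕ → ℕ) :
    ∀ P : Finset ℕ, (∀ p ∈ P, p.Prime ∧ E₁ ≤ e p) → ∀ X B : Finset ℤ, X.Nonempty → B.Nonempty →
      (1 - 3 * δ) * Sz X B * (δ / (2 * C) * ∑ p ∈ P, (e p : ℝ)) - Sz X B ^ 2 ≤
        (δ / (2 * C) * ∑ p ∈ P, (e p : ℝ)) * T (∏ p ∈ P, p ^ e p) X B := by
  intro P
  induction P using Finset.induction_on with
  | empty =>
    intro _ X B _ _
    simp only [Finset.sum_empty, mul_zero, zero_mul, zero_sub]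
    nlinarith [sq_nonneg (Sz X B)]
  | insert p P hpP ih =>
    intro hP X B hX hB
    obtain ⟨hp, hep⟩ := hP p (Finset.mem_insert_self _ _)
    have hP' : ∀ q ∈ P, q.Prime ∧ E₁ ≤ e q := fun q hq => hP q (Finset.mem_insert_of_mem hq)
    rw [Finset.sum_insert hpP, Finset.prod_insert hpP]
    set n : ℕ := ∏ q ∈ P, q ^ e q with hn
    have hn0 : n ≠ 0 := Finset.prod_ne_zero_iff.2 fun q hq => pow_ne_zero _ (hP' q hq).1.ne_zero
    have hcop : n.Coprime p := by
      apply Nat.Coprime.prod_left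
      intro q hq
      apply Nat.Coprime.pow_left
      rw [Nat.coprime_primes (hP' q hq).1 hp]
      rintro rfl
      exact hpP hq
    set c : ℝ := δ / (2 * C) with hc
    have hc0 : 0 < c := by positivity
    set G : ℝ := c * ∑ q ∈ P, (e q : ℝ) with hG
    have hG0 : 0 ≤ G := mul_nonneg hc0.le (Finset.sum_nonneg fun q _ => Nat.cast_nonneg _)
    set S : ℝ := Sz X B with hS
    have hS0 : 0 ≤ S := Sz_nonneg X B
    have hlX : 0 ≤ Real.log X.card := Real.log_natCast_nonneg _
    have hlB : 0 ≤ Real.log B.card := Real.log_natCast_nonneg _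
    have hSe : S = Real.log X.card + Real.log B.card := rfl
    have heR : (E₁ : ℝ) ≤ e p := by exact_mod_cast hep
    have hδe : 2 ≤ δ * e p := hE₁.trans (mul_le_mul_of_nonneg_left heR hδ.le)
    have he0 : (0 : ℝ) < e p := by
      by_contra hcon
      push Not at hcon
      have : δ * (e p : ℝ) ≤ 0 := mul_nonpos_of_nonneg_of_nonpos hδ.le hcon
      linarith
    set g' : ℝ := c * e p with hg'
    have hg'0 : 0 < g' := by positivity
    have hT0 : 0 ≤ T (p ^ e p * n) X B := T_nonneg _ _ _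
    have hsum : c * ((e p : ℝ) + ∑ q ∈ P, (e q : ℝ)) = g' + G := by rw [hG, hg']; ring
    rw [hsum]
    have hCg : C * (2 * g') = δ * e p := by rw [hg', hc]; field_simp
    -- large sum: nothing to prove
    by_cases hbig : g' + G ≤ S
    · have h1 : (1 - 3 * δ) * S * (g' + G) ≤ S ^ 2 := by
        have h2 : (1 - 3 * δ) * S * (g' + G) ≤ 1 * S * (g' + G) := by
          apply mul_le_mul_of_nonneg_right _ (by linarith)
          apply mul_le_mul_of_nonneg_right _ hS0
          linarith
        nlinarith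
      have h2 : 0 ≤ (g' + G) * T (p ^ e p * n) X B := mul_nonneg (by linarith) hT0
      linarith
    push Not at hbig
    -- small sets
    by_cases hsm : Real.log X.card ≤ 2 * g' ∧ Real.log B.card ≤ 2 * g'
    · have h1 := T_small hp hn0 hcop hX hB (e p) hC.le hsmall
      have h2 : C * (Real.log X.card * Real.log B.card) / (e p + 1) ≤ δ * S := by
        rw [div_le_iff₀ (by positivity)]
        calc C * (Real.log X.card * Real.log B.card) ≤ C * (2 * g' * Real.log B.card) := by
              apply mul_le_mul_of_nonneg_left _ hC.le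
              exact mul_le_mul_of_nonneg_right hsm.1 hlB
          _ = δ * e p * Real.log B.card := by rw [← mul_assoc, hCg]
          _ ≤ δ * e p * S := mul_le_mul_of_nonneg_left (by linarith) (by positivity)
          _ ≤ δ * S * (e p + 1) := by nlinarith [mul_nonneg hδ.le hS0]
      have h3 : (1 - 3 * δ) * S ≤ T (p ^ e p * n) X B := by
        have h4 : (0 : ℝ) ≤ δ * S := mul_nonneg hδ.le hS0
        rw [← hS] at h1
        linarith
      have h4 := mul_le_mul_of_nonneg_left h3 (by linarith : 0 ≤ g' + G)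
      nlinarith [sq_nonneg S]
    -- general case
    have hS2 : 2 * g' < S := by
      rw [not_and_or] at hsm
      rcases hsm with h | h
      · push Not at h; linarith
      · push Not at h; linarith
    have hGpos : 0 < G := by linarith
    have ih' : ∀ X B : Finset ℤ, X.Nonempty → B.Nonempty →
        (1 - 3 * δ) * Sz X B - Sz X B ^ 2 / G ≤ T n X B := by
      intro X' B' hX' hB'
      have h1 := ih hP' X' B' hX' hB'
      have h2 : ((1 - 3 * δ) * Sz X' B' - Sz X' B' ^ 2 / G) * G ≤ T n X' B' * G := by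
        rw [sub_mul, div_mul_cancel₀ _ hGpos.ne']
        linarith
      exact le_of_mul_le_mul_right h2 hGpos
    set HX : ℕ → ℝ := fun l => ent ((p : ℤ) ^ l) X with hHX
    set HB : ℕ → ℝ := fun l => ent ((p : ℤ) ^ l) B with hHB
    have hmX : Monotone HX := fun a b hab => ent_mono (pow_dvd_pow _ hab) X
    have hmB : Monotone HB := fun a b hab => ent_mono (pow_dvd_pow _ hab) B
    have hX0 : HX 0 = 0 := by rw [hHX]; simp only [pow_zero]; exact ent_one X
    have hB0 : HB 0 = 0 := by rw [hHB]; simp only [pow_zero]; exact ent_one B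
    have hex : (∃ l, 2 * g' < HX l) ∨ ∃ l, 2 * g' < HB l := by
      rw [not_and_or] at hsm
      rcases hsm with h | h
      · push Not at h
        obtain ⟨J, hJ⟩ := ent_large hp X
        exact Or.inl ⟨J, by rw [hHX]; simp only [hJ J le_rfl]; exact h⟩
      · push Not at h
        obtain ⟨J, hJ⟩ := ent_large hp B
        exact Or.inr ⟨J, by rw [hHB]; simp only [hJ J le_rfl]; exact h⟩
    obtain ⟨L, F, hF, hFc, hL, hloss⟩ := levels HX HB hmX hmB hX0 hB0 (2 * g') C (by positivity)
      hC.le (e p) hex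
    set base : ℝ := (1 - 3 * δ) * S - S ^ 2 / G with hbase
    -- every shift
    have hall : ∀ i, base ≤ T n (dil ((p : ℤ) ^ i) X) B := by
      intro i
      have hp0 : (p : ℤ) ^ i ≠ 0 := pow_ne_zero _ (by exact_mod_cast hp.ne_zero)
      have h1 := ih' (dil ((p : ℤ) ^ i) X) B (hX.image _) hB
      have h2 : Sz (dil ((p : ℤ) ^ i) X) B = S := by
        rw [hS]; unfold Sz; rw [card_dil hp0]
      rw [h2] at h1
      exact h1
    -- the good shifts
    set loss : ℕ → ℝ := fun i => C * ∑ l ∈ Finset.range (L i - 1),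
        (HX (l + 1 - i) - HX (l - i)) * (HB (l + 1) - HB l) +
        min (HX (L i - i) - HX (L i - 1 - i)) (HB (L i) - HB (L i - 1)) with hlossdef
    have hgood : ∀ i ∈ F, base + (2 * δ + S / G) * (2 * g') - loss i ≤
        T n (dil ((p : ℤ) ^ i) X) B := by
      intro i hi
      obtain ⟨hL1, hL2⟩ := hL i hi
      have h1 := EE_last hp hn0 hcop hX hB i hδ.le hsmall (L i) hL1
      have h2 := EE_lower hp hX hB i (L i) hGpos ih'
      have h3 : (0 : ℝ) ≤ 2 * δ + S / G := by positivity
      have h4 := mul_le_mul_of_nonneg_left hL2 h3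
      have h5 : ((1 - 3 * δ) - S / G) * (S - (HX (L i - i) + HB (L i))) ≤
          EE p n X B i (L i) := h2
      have h6 : (1 - δ) * (HX (L i - i) + HB (L i)) - loss i + EE p n X B i (L i) ≤
          T n (dil ((p : ℤ) ^ i) X) B := h1
      have h7 : base = ((1 - 3 * δ) - S / G) * S := by rw [hbase]; ring
      rw [h7]
      linarith
    have hsum1 : ∑ i ∈ Finset.range (e p + 1), T n (dil ((p : ℤ) ^ i) X) B ≥
        (e p + 1) * base + e p * ((2 * δ + S / G) * (2 * g')) - (C * (2 * g') ^ 2 + 2 * (2 * g'))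
        := by
      have h1 : ∑ i ∈ Finset.range (e p + 1), T n (dil ((p : ℤ) ^ i) X) B =
          ∑ i ∈ F, T n (dil ((p : ℤ) ^ i) X) B +
            ∑ i ∈ Finset.range (e p + 1) \ F, T n (dil ((p : ℤ) ^ i) X) B := by
        have := Finset.sum_sdiff (f := fun i => T n (dil ((p : ℤ) ^ i) X) B) hF
        linarith
      have h2 := Finset.sum_le_sum hgood
      have h3 : ∑ i ∈ Finset.range (e p + 1) \ F, base ≤
          ∑ i ∈ Finset.range (e p + 1) \ F, T n (dil ((p : ℤ) ^ i) X) B :=
        Finset.sum_le_sum fun i _ => hall i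
      rw [Finset.sum_const, nsmul_eq_mul, Finset.card_sdiff_of_subset hF, Finset.card_range,
        Nat.cast_sub (by simpa using Finset.card_le_card hF)] at h3
      rw [Finset.sum_sub_distrib, Finset.sum_const, nsmul_eq_mul] at h2
      push_cast at h3
      have h4 : (e p : ℝ) * ((2 * δ + S / G) * (2 * g')) ≤
          F.card * ((2 * δ + S / G) * (2 * g')) :=
        mul_le_mul_of_nonneg_right (by exact_mod_cast hFc) (by positivity)
      rw [h1]
      nlinarith
    -- conclusion
    have hTn : T (p ^ e p * n) X B * (e p + 1) =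
        ∑ i ∈ Finset.range (e p + 1), T n (dil ((p : ℤ) ^ i) X) B := by
      rw [T_mul hp hcop, div_mul_cancel₀ _ (by positivity)]
    have hfin : base + S * g' / G ≤ T (p ^ e p * n) X B := by
      have h1 : C * (2 * g') ^ 2 + 2 * (2 * g') ≤ e p * (2 * δ * (2 * g')) := by
        have h2 : C * (2 * g') ^ 2 = δ * e p * (2 * g') := by rw [← hCg]; ring
        rw [h2]
        nlinarith
      have h2 : (e p + 1) * base + e p * (S / G * (2 * g')) ≤
          T (p ^ e p * n) X B * (e p + 1) := by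
        rw [hTn]
        nlinarith
      have h3 : (base + S * g' / G) * (e p + 1) ≤ T (p ^ e p * n) X B * (e p + 1) := by
        refine le_trans ?_ h2
        have h4 : S * g' / G * (e p + 1) ≤ e p * (S / G * (2 * g')) := by
          have h5 : (0 : ℝ) ≤ S / G * g' := by positivity
          have h6 : (1 : ℝ) ≤ e p := by
            have : 0 < e p := by exact_mod_cast he0
            exact_mod_cast this
          have h7 : S * g' / G = S / G * g' := by ring
          rw [h7]
          nlinarith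
        linarith
      exact le_of_mul_le_mul_right h3 (by positivity)
    have hpot : (1 - 3 * δ) * S * (g' + G) - S ^ 2 ≤ (g' + G) * (base + S * g' / G) := by
      have h1 : (g' + G) * (base + S * g' / G) =
          (1 - 3 * δ) * S * (g' + G) - S ^ 2 + S * g' / G * (g' + G - S) := by
        rw [hbase]
        field_simp
        ring
      have h2 : 0 ≤ S * g' / G * (g' + G - S) := mul_nonneg (by positivity) (by linarith)
      linarith
    exact hpot.trans (mul_le_mul_of_nonneg_left hfin (by linarith))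

end Pool.Agent.TH83.DC
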