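import Pool.Agent.TH83.DC.Parts

/-!
Sums with dilates by the divisors of a number with large exponents: splitting by residues.
-/

set_option autoImplicit false

namespace Pool.Agent.TH83.DC

open Finset
open Pool.Agent.TH83.SQ (cls dil)
open scoped Pointwise Classical

theorem dil_dil (d e : ℤ) (X : Finset ℤ) : dil d (dil e X) = dil (d * e) X := by
  unfold dil
  rw [Finset.image_image]
  congr 1
  funext x
  simp [mul_assoc]

theorem dil_inj {d : ℤ} (hd : d ≠ 0) : Function.Injective fun x : ℤ => d * x :=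
  mul_right_injective₀ hd

theorem card_dil {d : ℤ} (hd : d ≠ 0) (X : Finset ℤ) : (dil d X).card = X.card :=
  Finset.card_image_of_injective _ (dil_inj hd)

theorem sum_dil {d : ℤ} (hd : d ≠ 0) (X : Finset ℤ) (f : ℤ → ℝ) :
    ∑ x ∈ dil d X, f x = ∑ x ∈ X, f (d * x) := by
  unfold dil
  exact Finset.sum_image fun x _ y _ h => dil_inj hd h

theorem T_nonneg (n : ℕ) (X B : Finset ℤ) : 0 ≤ T n X B := by
  unfold T
  exact div_nonneg (Finset.sum_nonneg fun d _ => Real.log_natCast_nonneg _) (Nat.cast_nonneg _)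

theorem self_mem_cls (Q : ℤ) {X : Finset ℤ} {t : ℤ} (ht : t ∈ X) : t ∈ cls Q X t := by
  simp [cls, ht]

theorem cls_pos (Q : ℤ) {X : Finset ℤ} {t : ℤ} (ht : t ∈ X) : (cls Q X t).Nonempty :=
  ⟨t, self_mem_cls Q ht⟩

/-- one splitting modulo `p ^ l` -/
theorem T_split {p : ℕ} (hp : p.Prime) {n : ℕ} (hn : n ≠ 0) (hcop : n.Coprime p)
    {X B : Finset ℤ} (hX : X.Nonempty) (hB : B.Nonempty) (i l : ℕ) (r : ℝ)
    (hr : ∀ (X' : Finset ℤ), X'.Nonempty →
      ent ((p : ℤ) ^ l) X' = ent ((p : ℤ) ^ (l - i)) X → r ≤ jent ((p : ℤ) ^ l) X' B) :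
    r + (∑ x ∈ X, ∑ b ∈ B, T n (dil ((p : ℤ) ^ i) (cls ((p : ℤ) ^ (l - i)) X x))
      (cls ((p : ℤ) ^ l) B b)) / (X.card * B.card) ≤ T n (dil ((p : ℤ) ^ i) X) B := by
  have cX : (0 : ℝ) < X.card := by exact_mod_cast hX.card_pos
  have cB : (0 : ℝ) < B.card := by exact_mod_cast hB.card_pos
  have hD : (n.divisors).Nonempty := ⟨1, Nat.one_mem_divisors.2 hn⟩
  have cD : (0 : ℝ) < n.divisors.card := by exact_mod_cast hD.card_pos
  have hp0 : (p : ℤ) ≠ 0 := by exact_mod_cast hp.ne_zero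
  have key : ∀ d ∈ n.divisors, r + (∑ x ∈ X, ∑ b ∈ B,
      Real.log ((dil (d : ℤ) (dil ((p : ℤ) ^ i) (cls ((p : ℤ) ^ (l - i)) X x)) +
        cls ((p : ℤ) ^ l) B b).card : ℝ)) / (X.card * B.card) ≤
      Real.log ((dil (d : ℤ) (dil ((p : ℤ) ^ i) X) + B).card : ℝ) := by
    intro d hd
    have hd0 : d ≠ 0 := (Nat.pos_of_mem_divisors hd).ne'
    have hdz : (d : ℤ) ≠ 0 := by exact_mod_cast hd0
    have hdc : IsCoprime (d : ℤ) (p : ℤ) := by
      rw [Nat.isCoprime_iff_coprime]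
      exact Nat.Coprime.coprime_dvd_left (Nat.dvd_of_mem_divisors hd) hcop
    have hdp : (d : ℤ) * (p : ℤ) ^ i ≠ 0 := mul_ne_zero hdz (pow_ne_zero _ hp0)
    rw [dil_dil]
    set X' : Finset ℤ := dil ((d : ℤ) * (p : ℤ) ^ i) X with hX'
    have hX'n : X'.Nonempty := hX.image _
    have h1 := gibbs ((p : ℤ) ^ l) hX'n hB
    have h2 := hr X' hX'n (ent_dil hp hdc hdz i l X)
    have h3 : (∑ x ∈ X', ∑ b ∈ B, Real.log ((cls ((p : ℤ) ^ l) X' x +
        cls ((p : ℤ) ^ l) B b).card : ℝ)) = ∑ x ∈ X, ∑ b ∈ B,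
      Real.log ((dil (d : ℤ) (dil ((p : ℤ) ^ i) (cls ((p : ℤ) ^ (l - i)) X x)) +
        cls ((p : ℤ) ^ l) B b).card : ℝ) := by
      rw [hX', sum_dil hdp]
      refine Finset.sum_congr rfl fun x _ => Finset.sum_congr rfl fun b _ => ?_
      rw [cls_dil hp hdc i l X x, dil_dil]
    rw [h3, hX', card_dil hdp] at h1
    linarith
  have h1 := Finset.sum_le_sum key
  rw [Finset.sum_add_distrib, Finset.sum_const, nsmul_eq_mul] at h1
  unfold T
  rw [le_div_iff₀ cD]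
  refine le_trans (le_of_eq ?_) h1
  rw [add_mul]
  congr 1
  · ring
  · rw [← Finset.sum_div, div_mul_eq_mul_div]
    congr 1
    simp only [← Finset.sum_div]
    rw [div_mul_cancel₀ _ cD.ne']
    rw [Finset.sum_comm (s := n.divisors)]
    refine Finset.sum_congr rfl fun x _ => ?_
    rw [Finset.sum_comm]

/-- the mean of `T` over the classes at level `l` -/
noncomputable def EE (p n : ℕ) (X B : Finset ℤ) (i l : ℕ) : ℝ :=
  (∑ x ∈ X, ∑ b ∈ B, T n (dil ((p : ℤ) ^ i) (cls ((p : ℤ) ^ (l - i)) X x))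
      (cls ((p : ℤ) ^ l) B b)) / (X.card * B.card)

theorem EE_zero (p n : ℕ) {X B : Finset ℤ} (hX : X.Nonempty) (hB : B.Nonempty) (i : ℕ) :
    EE p n X B i 0 = T n (dil ((p : ℤ) ^ i) X) B := by
  have cX : (0 : ℝ) < X.card := by exact_mod_cast hX.card_pos
  have cB : (0 : ℝ) < B.card := by exact_mod_cast hB.card_pos
  have h1 : ∀ (Y : Finset ℤ) (y : ℤ), cls 1 Y y = Y := fun Y y => by
    unfold cls
    exact Finset.filter_true_of_mem fun z _ => one_dvd _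
  unfold EE
  simp only [Nat.zero_sub, pow_zero, h1]
  rw [Finset.sum_const, Finset.sum_const, nsmul_eq_mul, nsmul_eq_mul]
  field_simp

/-- double averages over classes -/
theorem sum_cls₂ (Q Q' : ℤ) (X B : Finset ℤ) (f : ℤ → ℤ → ℝ) :
    ∑ x ∈ X, ∑ b ∈ B, (∑ x' ∈ cls Q X x, ∑ b' ∈ cls Q' B b, f x' b') /
      ((cls Q X x).card * (cls Q' B b).card) = ∑ x ∈ X, ∑ b ∈ B, f x b := by
  have h1 : ∀ x ∈ X, ∑ b ∈ B, (∑ x' ∈ cls Q X x, ∑ b' ∈ cls Q' B b, f x' b') /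
      ((cls Q X x).card * (cls Q' B b).card) =
      (∑ x' ∈ cls Q X x, ∑ b ∈ B, f x' b) / (cls Q X x).card := by
    intro x _
    rw [Finset.sum_div]
    have h2 : ∀ x' ∈ cls Q X x, (∑ b ∈ B, f x' b) / ((cls Q X x).card : ℝ) =
        ∑ b ∈ B, (∑ b' ∈ cls Q' B b, f x' b') / ((cls Q X x).card * (cls Q' B b).card) := by
      intro x' _
      rw [← sum_cls Q' B (fun b => f x' b), Finset.sum_div]
      refine Finset.sum_congr rfl fun b _ => ?_
      rw [div_div, mul_comm ((cls Q' B b).card : ℝ)]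
    rw [Finset.sum_congr rfl h2, Finset.sum_comm]
    refine Finset.sum_congr rfl fun b _ => ?_
    rw [← Finset.sum_div]
  rw [Finset.sum_congr rfl h1, sum_cls Q X (fun x' => ∑ b ∈ B, f x' b)]

/-- one level -/
theorem EE_step {p : ℕ} (hp : p.Prime) {n : ℕ} (hn : n ≠ 0) (hcop : n.Coprime p)
    {X B : Finset ℤ} (hX : X.Nonempty) (hB : B.Nonempty) (i l : ℕ) {δ C : ℝ}
    (hsmall : ∀ (Q : ℤ) (X B : Finset ℤ), X.Nonempty → B.Nonempty →
      (1 - δ) * (ent Q X + ent Q B) - C * (ent Q X * ent Q B) ≤ jent Q X B) :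
    let DX := ent ((p : ℤ) ^ (l + 1 - i)) X - ent ((p : ℤ) ^ (l - i)) X
    let DB := ent ((p : ℤ) ^ (l + 1)) B - ent ((p : ℤ) ^ l) B
    (1 - δ) * (DX + DB) - C * (DX * DB) + EE p n X B i (l + 1) ≤ EE p n X B i l ∧
      DX + EE p n X B i (l + 1) ≤ EE p n X B i l ∧
      DB + EE p n X B i (l + 1) ≤ EE p n X B i l := by
  intro DX DB
  have cX : (0 : ℝ) < X.card := by exact_mod_cast hX.card_pos
  have cB : (0 : ℝ) < B.card := by exact_mod_cast hB.card_pos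
  have hdvd : ((p : ℤ) ^ (l - i)) ∣ (p : ℤ) ^ (l + 1 - i) := pow_dvd_pow _ (by omega)
  have hdvd' : ((p : ℤ) ^ l) ∣ (p : ℤ) ^ (l + 1) := pow_dvd_pow _ (by omega)
  -- the local entropies
  set a : ℤ → ℝ := fun x => ent ((p : ℤ) ^ (l + 1 - i)) (cls ((p : ℤ) ^ (l - i)) X x) with ha
  set b' : ℤ → ℝ := fun b => ent ((p : ℤ) ^ (l + 1)) (cls ((p : ℤ) ^ l) B b) with hb'
  have hsa : (∑ x ∈ X, a x) / X.card = DX := ent_chain hdvd hX
  have hsb : (∑ b ∈ B, b' b) / B.card = DB := ent_chain hdvd' hB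
  have main : ∀ r : ℤ → ℤ → ℝ, (∀ x ∈ X, ∀ b ∈ B, ∀ (X' : Finset ℤ), X'.Nonempty →
      ent ((p : ℤ) ^ (l + 1)) X' = a x →
      r x b ≤ jent ((p : ℤ) ^ (l + 1)) X' (cls ((p : ℤ) ^ l) B b)) →
      (∑ x ∈ X, ∑ b ∈ B, r x b) / (X.card * B.card) + EE p n X B i (l + 1) ≤
        EE p n X B i l := by
    intro r hr
    have h1 : ∀ x ∈ X, ∀ b ∈ B, r x b +
        (∑ x' ∈ cls ((p : ℤ) ^ (l - i)) X x, ∑ b'' ∈ cls ((p : ℤ) ^ l) B b,
          T n (dil ((p : ℤ) ^ i) (cls ((p : ℤ) ^ (l + 1 - i)) X x'))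
            (cls ((p : ℤ) ^ (l + 1)) B b'')) /
          ((cls ((p : ℤ) ^ (l - i)) X x).card * (cls ((p : ℤ) ^ l) B b).card) ≤
        T n (dil ((p : ℤ) ^ i) (cls ((p : ℤ) ^ (l - i)) X x)) (cls ((p : ℤ) ^ l) B b) := by
      intro x hx b hb
      have h2 := T_split hp hn hcop (cls_pos ((p : ℤ) ^ (l - i)) hx)
        (cls_pos ((p : ℤ) ^ l) hb) i (l + 1) (r x b) (hr x hx b hb)
      have h3 : (∑ x' ∈ cls ((p : ℤ) ^ (l - i)) X x, ∑ b'' ∈ cls ((p : ℤ) ^ l) B b,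
          T n (dil ((p : ℤ) ^ i) (cls ((p : ℤ) ^ (l + 1 - i)) (cls ((p : ℤ) ^ (l - i)) X x) x'))
            (cls ((p : ℤ) ^ (l + 1)) (cls ((p : ℤ) ^ l) B b) b'')) =
          ∑ x' ∈ cls ((p : ℤ) ^ (l - i)) X x, ∑ b'' ∈ cls ((p : ℤ) ^ l) B b,
          T n (dil ((p : ℤ) ^ i) (cls ((p : ℤ) ^ (l + 1 - i)) X x'))
            (cls ((p : ℤ) ^ (l + 1)) B b'') := by
        refine Finset.sum_congr rfl fun x' hx' => Finset.sum_congr rfl fun b'' hb'' => ?_
        rw [cls_cls hdvd hx', cls_cls hdvd' hb'']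
      rw [h3] at h2
      exact h2
    have h2 := Finset.sum_le_sum fun x hx => Finset.sum_le_sum fun b hb => h1 x hx b hb
    simp only [Finset.sum_add_distrib] at h2
    rw [sum_cls₂ ((p : ℤ) ^ (l - i)) ((p : ℤ) ^ l) X B fun x' b'' =>
      T n (dil ((p : ℤ) ^ i) (cls ((p : ℤ) ^ (l + 1 - i)) X x'))
            (cls ((p : ℤ) ^ (l + 1)) B b'')] at h2
    unfold EE
    rw [← add_div]
    exact div_le_div_of_nonneg_right h2 (by positivity)
  refine ⟨?_, ?_, ?_⟩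
  · have h1 := main (fun x b => (1 - δ) * (a x + b' b) - C * (a x * b' b)) ?_
    · refine le_trans (le_of_eq ?_) h1
      congr 1
      have h2 : ∑ x ∈ X, ∑ b ∈ B, ((1 - δ) * (a x + b' b) - C * (a x * b' b)) =
          (1 - δ) * ((∑ x ∈ X, a x) * B.card + X.card * ∑ b ∈ B, b' b) -
            C * ((∑ x ∈ X, a x) * ∑ b ∈ B, b' b) := by
        simp only [Finset.sum_sub_distrib, ← Finset.mul_sum, Finset.sum_add_distrib,
          Finset.sum_const, nsmul_eq_mul, ← Finset.sum_mul]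
        ring
      rw [h2, ← hsa, ← hsb]
      field_simp
    · intro x hx b hb X' hX' he
      have h2 := hsmall ((p : ℤ) ^ (l + 1)) X' (cls ((p : ℤ) ^ l) B b) hX' (cls_pos _ hb)
      rw [he] at h2
      exact h2
  · have h1 := main (fun x _ => a x) ?_
    · refine le_trans (le_of_eq ?_) h1
      congr 1
      simp only [Finset.sum_const, nsmul_eq_mul, ← Finset.mul_sum]
      rw [← hsa]
      field_simp
    · intro x hx b hb X' hX' he
      have h2 := jent_left ((p : ℤ) ^ (l + 1)) hX' (cls_pos ((p : ℤ) ^ l) hb)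
      rw [he] at h2
      exact h2
  · have h1 := main (fun _ b => b' b) ?_
    · refine le_trans (le_of_eq ?_) h1
      congr 1
      simp only [Finset.sum_const, nsmul_eq_mul]
      rw [← hsb]
      field_simp
    · intro x hx b hb X' hX' he
      exact jent_right ((p : ℤ) ^ (l + 1)) hX' (cls_pos ((p : ℤ) ^ l) hb)

end Pool.Agent.TH83.DC
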